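import Pool.Agent.Run7.h981.OH.Boot

/-!
# From the tails to the fattened cluster
-/

set_option autoImplicit false
open MeasureTheory ProbabilityTheory Filter Set
open scoped ENNReal Pointwise Topology

namespace Pool.Agent.Run7.h981.OH

open Pool.Agent.N662.FP

noncomputable section

/-- the fattened cluster -/
def Clu (T : ℤ × ℤ → ℝ) (t : ℝ) : Set (ℝ × ℝ) :=
  {x : ℝ × ℝ | ∃ v : ℤ × ℤ, T v ≤ t ∧ |x.1 - (v.1 : ℝ)| ≤ 1 / 2 ∧ |x.2 - (v.2 : ℝ)| ≤ 1 / 2}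

/-- the cluster is not contained in `(1 + t ^ (-κ)) t` times the unit ball -/
def Exi {Ω : Type} (T : Ω → ℤ × ℤ → ℝ) (μ : ℝ × ℝ → ℝ) (κ t : ℝ) : Set Ω :=
  {ω | ¬ (Clu (T ω) t ⊆ ((1 + t ^ (-κ)) * t) • {x : ℝ × ℝ | μ x ≤ 1})}

theorem mem_ball (q : Seminorm ℝ (ℝ × ℝ)) {κ t : ℝ} (ht : 0 < t) (x : ℝ × ℝ) :
    x ∈ ((1 + t ^ (-κ)) * t) • {x : ℝ × ℝ | q x ≤ 1} ↔ q x ≤ t + t ^ (1 - κ) := by
  have h1 : (1 + t ^ (-κ)) * t = t + t ^ (1 - κ) := by
    rw [add_mul, one_mul, sub_eq_neg_add, Real.rpow_add ht, Real.rpow_one]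
  have h2 : 0 < t + t ^ (1 - κ) := by positivity
  rw [h1, mem_smul_set_iff_inv_smul_mem₀ h2.ne']
  show q ((t + t ^ (1 - κ))⁻¹ • x) ≤ 1 ↔ _
  rw [map_smul_eq_mul, Real.norm_eq_abs, abs_of_pos (inv_pos.2 h2), inv_mul_le_iff₀ h2, mul_one]

theorem em_mem {T : ℤ × ℤ → ℝ} {t : ℝ} {v : ℤ × ℤ} (h : T v ≤ t) : em v ∈ Clu T t := by
  refine ⟨v, h, ?_, ?_⟩
  · simp [Pool.Agent.N662.FP.em]
  · simp [Pool.Agent.N662.FP.em]

section
variable {Ω : Type} {X : Sym2 (ℤ × ℤ) → Ω → ℝ}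

theorem sub1 (q : Seminorm ℝ (ℝ × ℝ)) {κ t : ℝ} (ht : 0 < t) :
    {ω | env X ω ∈ Ov q t (t ^ (1 - κ))} ⊆ Exi (fun ω v => D (env X ω) 0 v) q κ t := by
  rintro ω ⟨v, h1, h2⟩ h3
  have h4 := h3 (em_mem (T := fun v => D (env X ω) 0 v) h1)
  rw [mem_ball q ht] at h4
  linarith

theorem sub2 (q : Seminorm ℝ (ℝ × ℝ)) {κ t : ℝ} (ht : 0 < t) :
    Exi (fun ω v => D (env X ω) 0 v) q κ t ⊆
      {ω | env X ω ∈ Ov q t (t ^ (1 - κ) - (q (1, 0) + q (0, 1)))} := by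
  intro ω h
  unfold Exi at h
  rw [mem_setOf_eq, Set.not_subset] at h
  obtain ⟨x, ⟨v, h1, h2, h3⟩, h4⟩ := h
  rw [mem_ball q ht, not_le] at h4
  refine ⟨v, h1, ?_⟩
  have h5 : q x ≤ q (em v) + q (x - em v) := by
    have := map_add_le_add q (em v) (x - em v)
    rwa [add_sub_cancel] at this
  have h6 := normP q (x - em v)
  have h7 : |(x - em v).1| + |(x - em v).2| ≤ 1 := by
    have : |x.1 - (v.1 : ℝ)| + |x.2 - (v.2 : ℝ)| ≤ 1 := by linarith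
    exact this
  have hC0 : 0 ≤ q (1, 0) + q (0, 1) := add_nonneg (apply_nonneg q _) (apply_nonneg q _)
  have h8 : (q (1, 0) + q (0, 1)) * (|(x - em v).1| + |(x - em v).2|) ≤
      (q (1, 0) + q (0, 1)) * 1 := mul_le_mul_of_nonneg_left h7 hC0
  linarith

end

section
variable {Ω : Type} [MeasureSpace Ω] [IsProbabilityMeasure (volume : Measure Ω)]
variable {X : Sym2 (ℤ × ℤ) → Ω → ℝ}

theorem real_le {E : Set Ω} {y : ℝ} (hy : 0 ≤ y) (h : (volume : Measure Ω) E ≤ ENNReal.ofReal y) :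
    (volume : Measure Ω).real E ≤ y := by
  have := ENNReal.toReal_mono ENNReal.ofReal_ne_top h
  rwa [ENNReal.toReal_ofReal hy] at this

theorem le_real {E : Set Ω} {y : ℝ} (h : (volume : Measure Ω).real E ≤ y) :
    (volume : Measure Ω) E ≤ ENNReal.ofReal y := by
  rw [← ofReal_measureReal]
  exact ENNReal.ofReal_le_ofReal h

/-- the event for the cluster is bounded by the overshoot, with a loss in the exponent -/
theorem exi_le (q : Seminorm ℝ (ℝ × ℝ)) {κ κ' : ℝ} (h : κ < κ') (hκ : κ < 1) :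
    ∀ᶠ t : ℝ in atTop, (volume : Measure Ω) (Exi (fun ω v => D (env X ω) 0 v) q κ t) ≤
      pO X q t (t ^ (1 - κ')) := by
  filter_upwards [eventually_ge_atTop (1 : ℝ), ev_pow (a := 1 - κ') (b := 1 - κ) (by linarith) 2,
    ev_pow (a := 0) (b := 1 - κ) (by linarith) (2 * (q (1, 0) + q (0, 1)))] with t ht h1 h2
  have h0 : (0 : ℝ) < t := lt_of_lt_of_le one_pos ht
  rw [Real.rpow_zero] at h2
  exact (measure_mono (sub2 q h0)).trans (pO_anti X q (by linarith))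

/-- one exponent -/
theorem one (hX : Iid X) (q : Seminorm ℝ (ℝ × ℝ)) {κ κ' a : ℝ} (h0 : 0 < κ) (h1 : κ < κ')
    (h2 : κ' < 1) (h3 : 2 * κ' < a)
    (h : Asymptotics.IsBigO atTop
      (fun t : ℝ => (volume : Measure Ω).real (Exi (fun ω v => D (env X ω) 0 v) q κ' t))
      (fun t : ℝ => t ^ (-a))) :
    ∃ c : ℝ, 0 < c ∧ ∀ᶠ t : ℝ in atTop,
      (volume : Measure Ω).real (Exi (fun ω v => D (env X ω) 0 v) q κ t) ≤ Real.exp (-(t ^ c)) := by
  obtain ⟨B, hB⟩ := h.bound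
  obtain ⟨c, hc, hc'⟩ := boot hX q (κ' := κ') (κ := (κ + κ') / 2) (a := a) (B := B) h2 h3
    (by linarith) (by linarith) (by
      filter_upwards [hB, eventually_gt_atTop (0 : ℝ)] with t ht h0
      refine (measure_mono (sub1 q h0)).trans (le_real ?_)
      rw [Real.norm_eq_abs, Real.norm_eq_abs, abs_of_nonneg measureReal_nonneg,
        abs_of_pos (Real.rpow_pos_of_pos h0 _)] at ht
      exact ht)
  refine ⟨c, hc, ?_⟩
  filter_upwards [hc', exi_le (X := X) q (κ := κ) (κ' := (κ + κ') / 2) (by linarith)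
    (by linarith)] with t h5 h6
  exact real_le (Real.exp_pos _).le (h6.trans h5)

/-- a stretched exponential is smaller than every power -/
theorem exp_O {f : ℝ → ℝ} (hf : ∀ t, 0 ≤ f t) {c : ℝ} (hc : 0 < c)
    (h : ∀ᶠ t : ℝ in atTop, f t ≤ Real.exp (-(t ^ c))) (a : ℝ) :
    Asymptotics.IsBigO atTop f (fun t : ℝ => t ^ (-a)) := by
  refine Asymptotics.IsBigO.of_bound 1 ?_
  filter_upwards [h, ev_exp (half_pos hc) (half_lt_self hc) one_pos 1 a,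
    eventually_gt_atTop (0 : ℝ)] with t h1 h2 h0
  rw [Real.norm_eq_abs, Real.norm_eq_abs, abs_of_nonneg (hf t),
    abs_of_pos (Real.rpow_pos_of_pos h0 _), one_mul, Real.rpow_neg h0.le]
  refine h1.trans ?_
  rw [← one_div, le_div_iff₀ (Real.rpow_pos_of_pos h0 a)]
  rw [one_mul, one_mul] at h2
  have h3 : Real.exp (-(t ^ (c / 2))) ≤ 1 := Real.exp_le_one_iff.2 (by
    have := Real.rpow_nonneg h0.le (c / 2)
    linarith)
  linarith [h2, mul_comm (t ^ a) (Real.exp (-(t ^ c)))]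

end

end

end Pool.Agent.Run7.h981.OH
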