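import Pool.Agent.Run7.h981.OH.Conv

/-!
# One-point forms
-/

set_option autoImplicit false
open MeasureTheory ProbabilityTheory Filter Set
open scoped ENNReal Pointwise Topology

namespace Pool.Agent.Run7.h981.OH

open Pool.Agent.N662.FP

noncomputable section

section
variable {Ω : Type} [MeasureSpace Ω] [IsProbabilityMeasure (volume : Measure Ω)]
variable {X : Sym2 (ℤ × ℤ) → Ω → ℝ}

/-- from the cluster to one point, at a stretched exponential rate -/
theorem to_one (q : Seminorm ℝ (ℝ × ℝ)) (hq : Tendsto (fun v : ℤ × ℤ => q (em v)) cofinite atTop)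
    {κ c : ℝ} (hκ : 0 < κ) (hκ1 : κ < 1) (hc : 0 < c) (h : ∀ᶠ t : ℝ in atTop,
      (volume : Measure Ω).real (Exi (fun ω v => D (env X ω) 0 v) q κ t) ≤ Real.exp (-(t ^ c))) :
    ∀ᶠ v : ℤ × ℤ in cofinite, (volume : Measure Ω).real
      {ω | D (env X ω) 0 v ≤ q (em v) - (1 + q (em v)) ^ (1 - κ)} ≤
        Real.exp (-((1 + q (em v)) ^ (c / 2))) := by
  have h1 : ∀ᶠ m : ℝ in atTop, ∀ t : ℝ, t = m - (1 + m) ^ (1 - κ) → 0 < t ∧ t < 1 + m ∧
      (volume : Measure Ω).real (Exi (fun ω v => D (env X ω) 0 v) q κ t) ≤ Real.exp (-(t ^ c)) ∧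
      (1 + m) ^ (c / 2) ≤ t ^ c := by
    obtain ⟨t0, ht0⟩ := eventually_atTop.1 h
    have hsh : Tendsto (fun m : ℝ => 1 + m) atTop atTop := tendsto_atTop_add_const_left _ _ tendsto_id
    filter_upwards [eventually_ge_atTop (8 : ℝ), eventually_ge_atTop (2 * (1 + t0)),
      eventually_ge_atTop (2 * (1 + |t0|)),
      hsh.eventually (ev_pow (a := 1 - κ) (b := 1) (by linarith) 4),
      hsh.eventually (ev_pow (a := c / 2) (b := c) (by linarith) (4 ^ c))] with m m8 _ mt h1 h2 t ht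
    rw [Real.rpow_one] at h1
    have e1 : (1 + m) / 4 ≤ t := by rw [ht]; linarith
    have e2 : t0 ≤ t := by
      have := le_abs_self t0
      rw [ht]
      linarith
    have e3 : 0 < t := by linarith
    have e4 : 0 < (1 + m) ^ (1 - κ) := Real.rpow_pos_of_pos (by linarith) _
    refine ⟨e3, by rw [ht]; linarith, ht0 t e2, ?_⟩
    calc (1 + m) ^ (c / 2) ≤ (1 + m) ^ c / 4 ^ c := by
          rw [le_div_iff₀ (by positivity), mul_comm]; exact h2
      _ = ((1 + m) / 4) ^ c := (Real.div_rpow (by linarith) (by norm_num) _).symm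
      _ ≤ t ^ c := Real.rpow_le_rpow (by linarith) e1 hc.le
  filter_upwards [hq.eventually h1] with v hv
  obtain ⟨h2, h3, h4, h5⟩ := hv _ rfl
  have h6 := Real.rpow_lt_rpow h2.le h3 (show 0 < 1 - κ by linarith)
  refine le_trans (measureReal_mono ?_ (measure_ne_top _ _))
    (h4.trans (Real.exp_le_exp.2 (neg_le_neg h5)))
  refine Subset.trans (fun ω hω => ?_) (sub1 (X := X) q h2)
  exact ⟨v, hω, by linarith⟩

/-- stretched exponential decay off a finite set gives power decay everywhere -/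
theorem cof_all {V : Type} {m f : V → ℝ} (hm : ∀ v, 0 ≤ m v) (hmt : Tendsto m cofinite atTop)
    (hf : ∀ v, f v ≤ 1) {c : ℝ} (hc : 0 < c)
    (h : ∀ᶠ v : V in cofinite, f v ≤ Real.exp (-((1 + m v) ^ c))) (a : ℝ) :
    ∃ A : ℝ, ∀ v, f v ≤ A * (1 + m v) ^ (-a) := by
  have hsh : Tendsto (fun m : ℝ => 1 + m) atTop atTop := tendsto_atTop_add_const_left _ _ tendsto_id
  have h1 : ∀ᶠ v : V in cofinite, f v ≤ (1 + m v) ^ (-a) := by
    filter_upwards [h, hmt.eventually (hsh.eventually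
      (ev_exp (half_pos hc) (half_lt_self hc) one_pos 1 a))] with v h2 h3
    have h0 : 0 < 1 + m v := by linarith [hm v]
    refine h2.trans ?_
    rw [Real.rpow_neg h0.le, ← one_div, le_div_iff₀ (Real.rpow_pos_of_pos h0 a)]
    rw [one_mul, one_mul] at h3
    have h4 : Real.exp (-((1 + m v) ^ (c / 2))) ≤ 1 := Real.exp_le_one_iff.2 (by
      have := Real.rpow_nonneg h0.le (c / 2)
      linarith)
    linarith [mul_comm ((1 + m v) ^ a) (Real.exp (-((1 + m v) ^ c)))]
  have h2 : {v | ¬ f v ≤ (1 + m v) ^ (-a)}.Finite := h1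
  refine ⟨1 + ∑ v ∈ h2.toFinset, (1 + m v) ^ a, fun v => ?_⟩
  have h0 : ∀ v, 0 < 1 + m v := fun v => by linarith [hm v]
  have hS : 0 ≤ ∑ v ∈ h2.toFinset, (1 + m v) ^ a :=
    Finset.sum_nonneg fun v _ => Real.rpow_nonneg (h0 v).le _
  by_cases hv : f v ≤ (1 + m v) ^ (-a)
  · refine hv.trans (le_mul_of_one_le_left (Real.rpow_nonneg (h0 v).le _) (by linarith))
  · have h3 : (1 + m v) ^ a ≤ ∑ v ∈ h2.toFinset, (1 + m v) ^ a :=
      Finset.single_le_sum (f := fun v => (1 + m v) ^ a)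
        (fun v _ => Real.rpow_nonneg (h0 v).le _) (h2.mem_toFinset.2 hv)
    calc f v ≤ 1 := hf v
      _ = (1 + m v) ^ a * (1 + m v) ^ (-a) := by
          rw [← Real.rpow_add (h0 v)]; simp
      _ ≤ _ := by
          have := Real.rpow_nonneg (h0 v).le (-a)
          gcongr
          linarith

/-- a union bound over the boundary: from one point to the cluster -/
theorem from_one (hX : Iid X) (q : Seminorm ℝ (ℝ × ℝ)) {κ κ2 a A : ℝ} (h0 : 0 < κ) (h1 : κ < κ2)
    (h2 : κ2 < 1) (ha : 2 < a) (h : ∀ v : ℤ × ℤ, (volume : Measure Ω).real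
      {ω | D (env X ω) 0 v ≤ q (em v) - (1 + q (em v)) ^ (1 - κ2)} ≤ A * (1 + q (em v)) ^ (-a)) :
    Asymptotics.IsBigO atTop
      (fun t : ℝ => (volume : Measure Ω).real (Exi (fun ω v => D (env X ω) 0 v) q κ t))
      (fun t : ℝ => t ^ (-(a - 2))) := by
  set C0 : ℝ := q (1, 0) + q (0, 1) with hC
  have hC0 : 0 ≤ C0 := add_nonneg (apply_nonneg q _) (apply_nonneg q _)
  set κ3 : ℝ := (κ + κ2) / 2 with hκ3
  refine Asymptotics.IsBigO.of_bound (103 ^ 2 * |A| + 1) ?_
  filter_upwards [eventually_ge_atTop (1 : ℝ), exi_le (X := X) q (κ := κ) (κ' := κ3) (by linarith)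
    (by linarith), ev_pow (a := 1 - κ2) (b := 1 - κ3) (by linarith) (1 + 100 * C0),
    ev_exp (c := 1 / 2) (b := 1) (by norm_num) (by norm_num) one_pos 1 (a - 2)]
    with t ht g1 g2 g3
  have t0 : (0 : ℝ) < t := lt_of_lt_of_le one_pos ht
  set M : ℕ := ⌊25 * (t + 1)⌋₊ with hM
  have M1 : 25 * (t + 1) < M + 1 := Nat.lt_floor_add_one _
  have M2 : (M : ℝ) ≤ 25 * (t + 1) := Nat.floor_le (by linarith)
  have hsub : ∀ᵐ ω ∂(volume : Measure Ω), ω ∈ {ω | env X ω ∈ Ov q t (t ^ (1 - κ3))} →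
      ω ∈ (⋃ n : ℕ, {ω : Ω | Fast (sh 0 (env X ω)) (M + 1 + n)}) ∪
        ⋃ v ∈ (box M).filter (fun v => t + t ^ (1 - κ3) < q (em v)),
          {ω : Ω | D (env X ω) 0 v ≤ t} := by
    filter_upwards [ae_nn hX] with ω hx hω
    obtain ⟨v, hv, hqv⟩ := hω
    obtain ⟨s', hs', hs''⟩ := exists_lt_of_csInf_lt (cGE (env X ω) hx 0 v).1
      (show D (env X ω) 0 v < D (env X ω) 0 v + 1 by linarith)
    obtain ⟨n, p, p0, pn, hp, hinj, hsum⟩ := cSAW (env X ω) hx 0 v s' hs'
    by_cases hn : n ≤ M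
    · right
      have h1 := path_box p0 hp n le_rfl
      rw [pn] at h1
      have hn' : (n : ℤ) ≤ M := by exact_mod_cast hn
      exact mem_iUnion₂.2 ⟨v, Finset.mem_filter.2
        ⟨mem_box.2 ⟨h1.1.trans hn', h1.2.trans hn'⟩, hqv⟩, hv⟩
    · left
      push Not at hn
      refine mem_iUnion.2 ⟨n - (M + 1), ?_⟩
      show Fast _ _
      rw [show M + 1 + (n - (M + 1)) = n by omega, sh_zero]
      refine ⟨p, p0, hp, hinj, ?_⟩
      have : ((M : ℝ) + 1) ≤ n := by exact_mod_cast hn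
      linarith
  have hpt : ∀ v ∈ (box M).filter (fun v => t + t ^ (1 - κ3) < q (em v)),
      (volume : Measure Ω) {ω : Ω | D (env X ω) 0 v ≤ t} ≤ ENNReal.ofReal (|A| * t ^ (-a)) := by
    intro v hv
    obtain ⟨hv1, hv2⟩ := Finset.mem_filter.1 hv
    rw [mem_box] at hv1
    set m : ℝ := q (em v) with hm
    have tp : 0 < t ^ (1 - κ3) := Real.rpow_pos_of_pos t0 _
    have m1 : 1 + m ≤ (1 + 100 * C0) * t := by
      have e1 := normC q v
      have e2 : ((|v.1| + |v.2| : ℤ) : ℝ) ≤ 2 * M := by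
        have : (|v.1| + |v.2| : ℤ) ≤ 2 * M := by linarith [hv1.1, hv1.2]
        exact_mod_cast this
      have e3 : C0 * ((|v.1| + |v.2| : ℤ) : ℝ) ≤ C0 * (100 * t) :=
        mul_le_mul_of_nonneg_left (by linarith) hC0
      linarith
    have m2 : (1 + m) ^ (1 - κ2) ≤ t ^ (1 - κ3) := by
      calc (1 + m) ^ (1 - κ2) ≤ ((1 + 100 * C0) * t) ^ (1 - κ2) :=
            Real.rpow_le_rpow (by linarith) m1 (by linarith)
        _ = (1 + 100 * C0) ^ (1 - κ2) * t ^ (1 - κ2) :=
            Real.mul_rpow (by linarith) t0.le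
        _ ≤ (1 + 100 * C0) * t ^ (1 - κ2) := by
            gcongr
            calc (1 + 100 * C0) ^ (1 - κ2) ≤ (1 + 100 * C0) ^ (1 : ℝ) :=
                  Real.rpow_le_rpow_of_exponent_le (by linarith) (by linarith)
              _ = _ := Real.rpow_one _
        _ ≤ _ := g2
    refine (measure_mono (t := {ω | D (env X ω) 0 v ≤ m - (1 + m) ^ (1 - κ2)}) ?_).trans
      (le_real ((h v).trans ?_))
    · intro ω hω
      have : D (env X ω) 0 v ≤ t := hω
      show D (env X ω) 0 v ≤ m - (1 + m) ^ (1 - κ2)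
      linarith
    · calc A * (1 + m) ^ (-a) ≤ |A| * (1 + m) ^ (-a) := by
            have : 0 < 1 + m := by linarith
            gcongr
            exact le_abs_self A
        _ ≤ |A| * t ^ (-a) := by
            refine mul_le_mul_of_nonneg_left ?_ (abs_nonneg A)
            exact Real.rpow_le_rpow_of_nonpos t0 (by linarith) (by linarith)
  have hcard : (((box M).filter (fun v => t + t ^ (1 - κ3) < q (em v))).card : ℝ) ≤
      (103 * t) ^ 2 := by
    have e1 : (((box M).filter (fun v => t + t ^ (1 - κ3) < q (em v))).card : ℝ) ≤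
        ((box M).card : ℝ) := by exact_mod_cast Finset.card_filter_le _ _
    refine e1.trans ?_
    rw [box_card]
    push_cast
    gcongr
    linarith
  have hP : pO X q t (t ^ (1 - κ3)) ≤ ENNReal.ofReal (t ^ (-(a - 2))) +
      ENNReal.ofReal ((103 * t) ^ 2 * (|A| * t ^ (-a))) := by
    calc pO X q t (t ^ (1 - κ3)) ≤ _ := measure_mono_ae hsub
      _ ≤ (volume : Measure Ω) (⋃ n : ℕ, {ω : Ω | Fast (sh 0 (env X ω)) (M + 1 + n)}) +
          (volume : Measure Ω) (⋃ v ∈ (box M).filter (fun v => t + t ^ (1 - κ3) < q (em v)),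
            {ω : Ω | D (env X ω) 0 v ≤ t}) := measure_union_le _ _
      _ ≤ _ := by
        gcongr
        · calc (volume : Measure Ω) (⋃ n : ℕ, {ω : Ω | Fast (sh 0 (env X ω)) (M + 1 + n)}) ≤
                (1 / 2 : ℝ≥0∞) ^ M := by
                refine (measure_iUnion_le _).trans ?_
                rw [← geom_tail M]
                exact ENNReal.tsum_le_tsum fun n => fast_le hX 0 _
            _ ≤ ENNReal.ofReal (Real.exp (-t)) := half_pow M t (by linarith)
            _ ≤ _ := by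
                refine ENNReal.ofReal_le_ofReal ?_
                rw [Real.rpow_neg t0.le, ← one_div, le_div_iff₀ (Real.rpow_pos_of_pos t0 _)]
                rw [one_mul, one_mul, Real.rpow_one] at g3
                have h4 : Real.exp (-(t ^ (1 / 2 : ℝ))) ≤ 1 := Real.exp_le_one_iff.2 (by
                  have := Real.rpow_nonneg t0.le (1 / 2)
                  linarith)
                linarith [mul_comm (t ^ (a - 2)) (Real.exp (-t))]
        · calc _ ≤ ∑ v ∈ (box M).filter (fun v => t + t ^ (1 - κ3) < q (em v)),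
                (volume : Measure Ω) {ω : Ω | D (env X ω) 0 v ≤ t} := measure_biUnion_finset_le _ _
            _ ≤ ∑ v ∈ (box M).filter (fun v => t + t ^ (1 - κ3) < q (em v)),
                ENNReal.ofReal (|A| * t ^ (-a)) := Finset.sum_le_sum hpt
            _ ≤ _ := by
                rw [Finset.sum_const, nsmul_eq_mul]
                exact mul_ofR (by positivity) (nat_ofR hcard) le_rfl
  rw [← ENNReal.ofReal_add (by positivity) (by positivity)] at hP
  have hfin := real_le (by positivity) (g1.trans hP)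
  rw [Real.norm_eq_abs, Real.norm_eq_abs, abs_of_nonneg measureReal_nonneg,
    abs_of_pos (Real.rpow_pos_of_pos t0 _)]
  refine hfin.trans (le_of_eq ?_)
  have e1 : t ^ (-(a - 2)) = t ^ (-a) * t ^ 2 := by
    rw [show -(a - 2) = -a + (2 : ℕ) by push_cast; ring, Real.rpow_add t0, Real.rpow_natCast]
  rw [e1]
  ring

end

end

end Pool.Agent.Run7.h981.OH
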