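import Pool.Agent.Run7.h981.OH.Fs

/-!
# The asymptotic step
-/

set_option autoImplicit false
open MeasureTheory ProbabilityTheory Filter Set
open scoped ENNReal Pointwise Topology

namespace Pool.Agent.Run7.h981.OH

open Pool.Agent.N662.FP

noncomputable section

/-- comparison of powers -/
theorem ev_pow {a b : ℝ} (hab : a < b) (C : ℝ) : ∀ᶠ t : ℝ in atTop, C * t ^ a ≤ t ^ b := by
  have h : Tendsto (fun t : ℝ => t ^ (b - a)) atTop atTop := tendsto_rpow_atTop (by linarith)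
  filter_upwards [h.eventually_ge_atTop C, eventually_gt_atTop 0] with t ht h0
  calc C * t ^ a ≤ t ^ (b - a) * t ^ a := by gcongr
    _ = t ^ b := by rw [← Real.rpow_add h0]; congr 1; ring

/-- powers against stretched exponentials -/
theorem ev_exp {b c D : ℝ} (hc : 0 < c) (hcb : c < b) (hD : 0 < D) (C m : ℝ) :
    ∀ᶠ t : ℝ in atTop, C * t ^ m * Real.exp (-(D * t ^ b)) ≤ Real.exp (-(t ^ c)) / 4 := by
  have hb : 0 < b := hc.trans hcb
  have h1 : Tendsto (fun x : ℝ => x ^ (m / b) * Real.exp (-(D / 2) * x)) atTop (𝓝 0) :=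
    tendsto_rpow_mul_exp_neg_mul_atTop_nhds_zero (m / b) (D / 2) (by positivity)
  have h2 : Tendsto (fun t : ℝ => t ^ b) atTop atTop := tendsto_rpow_atTop hb
  have h3 := h1.comp h2
  have h4 : Tendsto (fun t : ℝ => (4 * |C|) * ((t ^ b) ^ (m / b) * Real.exp (-(D / 2) * t ^ b)))
      atTop (𝓝 0) := by
    simpa using h3.const_mul (4 * |C|)
  filter_upwards [h4.eventually (gt_mem_nhds (show (0 : ℝ) < 1 by norm_num)),
    ev_pow hcb (2 / D), eventually_gt_atTop 0] with t ht1 ht2 h0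
  have e1 : (t ^ b) ^ (m / b) = t ^ m := by
    rw [← Real.rpow_mul h0.le]; congr 1; field_simp
  rw [e1] at ht1
  have e2 : t ^ c ≤ (D / 2) * t ^ b := by
    have := mul_le_mul_of_nonneg_left ht2 (show 0 ≤ D / 2 by positivity)
    calc t ^ c = D / 2 * (2 / D * t ^ c) := by field_simp
      _ ≤ _ := this
  have e3 : Real.exp (-(D * t ^ b)) = Real.exp (-(D / 2) * t ^ b) * Real.exp (-((D / 2) * t ^ b)) := by
    rw [← Real.exp_add]; congr 1; ring
  have e4 : Real.exp (-((D / 2) * t ^ b)) ≤ Real.exp (-(t ^ c)) := Real.exp_le_exp.2 (by linarith)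
  have e5 : C * t ^ m ≤ |C| * t ^ m := mul_le_mul_of_nonneg_right (le_abs_self C) (by positivity)
  calc C * t ^ m * Real.exp (-(D * t ^ b)) ≤ |C| * t ^ m * Real.exp (-(D * t ^ b)) := by gcongr
    _ = (|C| * (t ^ m * Real.exp (-(D / 2) * t ^ b))) * Real.exp (-((D / 2) * t ^ b)) := by
        rw [e3]; ring
    _ ≤ (1 / 4) * Real.exp (-(t ^ c)) := by
        refine mul_le_mul (by linarith) e4 (Real.exp_pos _).le (by norm_num)
    _ = _ := by ring

theorem box_card (r : ℕ) : (box r).card = (2 * r + 1) ^ 2 := by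
  unfold box
  rw [Finset.card_product, Int.card_Icc]
  have : ((r : ℤ) + 1 - -(r : ℤ)).toNat = 2 * r + 1 := by omega
  rw [this]
  ring

theorem Net_card (r l : ℕ) : (Net r l).card ≤ (2 * (r / l + 1) + 1) ^ 2 := by
  rw [← box_card]
  unfold Net
  exact Finset.card_image_le

theorem half_pow (M : ℕ) (y : ℝ) (h : 2 * y ≤ M) : (1 / 2 : ℝ≥0∞) ^ M ≤
    ENNReal.ofReal (Real.exp (-y)) := by
  have h1 : (1 / 2 : ℝ≥0∞) = ENNReal.ofReal (1 / 2) := by
    rw [ENNReal.ofReal_div_of_pos (by norm_num)]; simp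
  rw [h1, ← ENNReal.ofReal_pow (by norm_num)]
  refine ENNReal.ofReal_le_ofReal ?_
  have h2 : (1 / 2 : ℝ) ≤ Real.exp (-(1 / 2)) := by
    have := Real.add_one_le_exp (-(1 / 2 : ℝ))
    linarith
  calc (1 / 2 : ℝ) ^ M ≤ Real.exp (-(1 / 2)) ^ M := by gcongr
    _ = Real.exp (-(M / 2 : ℝ)) := by rw [← Real.exp_nat_mul]; congr 1; ring
    _ ≤ Real.exp (-y) := Real.exp_le_exp.2 (by linarith)

end

end Pool.Agent.Run7.h981.OH
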