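import Pool.Agent.Run7.h981.OH.Step

/-!
# The bootstrap
-/

set_option autoImplicit false
open MeasureTheory ProbabilityTheory Filter Set
open scoped ENNReal Pointwise Topology

namespace Pool.Agent.Run7.h981.OH

open Pool.Agent.N662.FP

noncomputable section

/-- a bound for the seminorm of points of the plane -/
theorem normP (q : Seminorm ℝ (ℝ × ℝ)) (x : ℝ × ℝ) :
    q x ≤ (q (1, 0) + q (0, 1)) * (|x.1| + |x.2|) := by
  have e : x = x.1 • ((1, 0) : ℝ × ℝ) + x.2 • ((0, 1) : ℝ × ℝ) := by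
    ext <;> simp
  have h1 : q x ≤ |x.1| * q (1, 0) + |x.2| * q (0, 1) := by
    conv_lhs => rw [e]
    refine (map_add_le_add q _ _).trans ?_
    rw [map_smul_eq_mul, map_smul_eq_mul, Real.norm_eq_abs, Real.norm_eq_abs]
  have h2 : 0 ≤ q (1, 0) := apply_nonneg q _
  have h3 : 0 ≤ q (0, 1) := apply_nonneg q _
  have h4 := abs_nonneg x.1
  have h5 := abs_nonneg x.2
  nlinarith [mul_nonneg h2 h5, mul_nonneg h3 h4]

theorem normC (q : Seminorm ℝ (ℝ × ℝ)) (w : ℤ × ℤ) :
    q (em w) ≤ (q (1, 0) + q (0, 1)) * ((|w.1| + |w.2| : ℤ) : ℝ) := by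
  have := normP q (em w)
  push_cast
  exact this

theorem Ov_anti {q : Seminorm ℝ (ℝ × ℝ)} {t r r' : ℝ} (h : r ≤ r') : Ov q t r' ⊆ Ov q t r := by
  rintro x ⟨v, h1, h2⟩
  exact ⟨v, h1, by linarith⟩

section
variable {Ω : Type} [MeasureSpace Ω] [IsProbabilityMeasure (volume : Measure Ω)]
variable {X : Sym2 (ℤ × ℤ) → Ω → ℝ}

omit [IsProbabilityMeasure (volume : Measure Ω)] in
theorem pO_anti (X : Sym2 (ℤ × ℤ) → Ω → ℝ) (q : Seminorm ℝ (ℝ × ℝ)) {t r r' : ℝ} (h : r ≤ r') :
    pO X q t r' ≤ pO X q t r :=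
  measure_mono fun _ hω => Ov_anti h hω

/-- the crude bound -/
theorem base (hX : Iid X) (q : Seminorm ℝ (ℝ × ℝ)) : SE X q 0 := by
  set C0 : ℝ := q (1, 0) + q (0, 1) with hC
  have hC0 : 0 ≤ C0 := add_nonneg (apply_nonneg q _) (apply_nonneg q _)
  refine ⟨100 * C0, 1, by positivity, one_pos, ?_⟩
  filter_upwards [eventually_ge_atTop (1 : ℝ)] with s hs
  rw [sub_zero, Real.rpow_one]
  set M : ℕ := ⌊25 * (s + 1)⌋₊ with hM
  have M1 : 25 * (s + 1) < M + 1 := Nat.lt_floor_add_one _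
  have M2 : (M : ℝ) ≤ 25 * (s + 1) := Nat.floor_le (by linarith)
  have hsub : ∀ᵐ ω ∂(volume : Measure Ω), ω ∈ {ω | env X ω ∈ Ov q s (100 * C0 * s)} →
      ω ∈ (⋃ n : ℕ, {ω : Ω | Fast (sh 0 (env X ω)) (M + 1 + n)}) := by
    filter_upwards [ae_nn hX] with ω hx hω
    obtain ⟨v, hv, hqv⟩ := hω
    obtain ⟨s', hs', hs''⟩ := exists_lt_of_csInf_lt (cGE (env X ω) hx 0 v).1
      (show D (env X ω) 0 v < D (env X ω) 0 v + 1 by linarith)
    obtain ⟨n, p, p0, pn, hp, hinj, hsum⟩ := cSAW (env X ω) hx 0 v s' hs'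
    by_cases hn : n ≤ M
    · exfalso
      have h1 := path_box p0 hp n le_rfl
      rw [pn] at h1
      have h2 := normC q v
      have h3 : ((|v.1| + |v.2| : ℤ) : ℝ) ≤ 2 * M := by
        have h4 : (|v.1| + |v.2| : ℤ) ≤ 2 * M := by
          have : (n : ℤ) ≤ M := by exact_mod_cast hn
          linarith [h1.1, h1.2]
        exact_mod_cast h4
      have h5 : C0 * ((|v.1| + |v.2| : ℤ) : ℝ) ≤ C0 * (100 * s) := by
        refine mul_le_mul_of_nonneg_left ?_ hC0
        linarith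
      linarith
    · push Not at hn
      refine mem_iUnion.2 ⟨n - (M + 1), ?_⟩
      show Fast _ _
      rw [show M + 1 + (n - (M + 1)) = n by omega, sh_zero]
      refine ⟨p, p0, hp, hinj, ?_⟩
      have : ((M : ℝ) + 1) ≤ n := by exact_mod_cast hn
      linarith
  calc pO X q s (100 * C0 * s) ≤ (volume : Measure Ω) (⋃ n : ℕ, {ω : Ω | Fast (sh 0 (env X ω)) (M + 1 + n)}) :=
        measure_mono_ae hsub
    _ ≤ (1 / 2 : ℝ≥0∞) ^ M := by
        refine (measure_iUnion_le _).trans ?_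
        rw [← geom_tail M]
        exact ENNReal.tsum_le_tsum fun n => fast_le hX 0 _
    _ ≤ _ := by
        exact half_pow M s (by linarith)

/-- **the bootstrap** -/
theorem boot (hX : Iid X) (q : Seminorm ℝ (ℝ × ℝ)) {κ' κ a B : ℝ} (hκ'1 : κ' < 1)
    (ha : 2 * κ' < a) (hκ : 0 ≤ κ) (hκκ : κ < κ')
    (hH : ∀ᶠ s : ℝ in atTop, pO X q s (s ^ (1 - κ')) ≤ ENNReal.ofReal (B * s ^ (-a))) :
    ∃ c : ℝ, 0 < c ∧ ∀ᶠ t : ℝ in atTop,
      pO X q t (t ^ (1 - κ)) ≤ ENNReal.ofReal (Real.exp (-(t ^ c))) := by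
  have hκ' : 0 < κ' := by linarith
  have hC0 : 0 ≤ q (1, 0) + q (0, 1) := add_nonneg (apply_nonneg q _) (apply_nonneg q _)
  set g : ℝ := a - 2 * κ' with hg
  have g0 : 0 < g := by linarith
  set m : ℝ := max (κ / κ') (3 / (3 + g)) with hm
  have m1 : m < 1 := max_lt ((div_lt_one hκ').2 hκκ) ((div_lt_one (by linarith)).2 (by linarith))
  have m0 : 0 < m := lt_max_of_lt_right (by positivity)
  set β : ℝ := (1 + m) / 2 with hβ
  have β1 : β < 1 := by linarith
  have βm : m < β := by linarith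
  have β2 : 1 / 2 < β := by linarith
  have b1 : κ < β * κ' := by
    have : κ / κ' < β := (le_max_left _ _).trans_lt βm
    rwa [div_lt_iff₀ hκ'] at this
  have b2 : 3 * (1 - β) < β * g := by
    have : 3 / (3 + g) < β := (le_max_right _ _).trans_lt βm
    rw [div_lt_iff₀ (by linarith)] at this
    linarith
  set ε : ℝ := (1 - β) * (1 - κ') / 8 with hε
  have ε0 : 0 < ε := by
    have : 0 < (1 - β) * (1 - κ') := mul_pos (by linarith) (by linarith)
    linarith
  have ε1 : 8 * ε = (1 - β) * (1 - κ') := by rw [hε]; ring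
  have ε2 : 8 * ε ≤ 1 - β := by
    rw [ε1]
    exact mul_le_of_le_one_right (by linarith) (by linarith)
  have b3 : 2 * ε < β * (1 - κ') := by
    have h1 : (1 - β) * (1 - κ') ≤ β * (1 - κ') :=
      mul_le_mul_of_nonneg_right (by linarith) (by linarith)
    linarith
  have key : ∀ κn κm : ℝ, 0 ≤ κn → κn < κ' → κm ≤ κ → κm ≤ κn + 2 * ε → SE X q κn →
      ∃ c : ℝ, 0 < c ∧ ∀ᶠ t : ℝ in atTop,
        pO X q t (t ^ (1 - κm)) ≤ ENNReal.ofReal (Real.exp (-(t ^ c))) := by
    intro κn κm h1 h2 h3 h4 hS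
    refine step hX q (normC q) hC0 (β := β) (ε := ε) (γ := β * (1 - κ') - 2 * ε) (κ' := κ')
      (κn := κn) (κ := κm) (a := a) (B := B) (by linarith) β1 ε0 (by linarith) hκ' hκ'1 h1
      (by linarith) (by linarith) (by linarith) (by linarith) ?_ ?_ hH hS
    · have h5 : (1 - β) * (1 - κ') ≤ (1 - β) * (1 - κn) :=
        mul_le_mul_of_nonneg_left (by linarith) (by linarith)
      nlinarith
    · have h5 : β * a = β * g + 2 * (β * κ') := by rw [hg]; ring
      rw [h5]
      nlinarith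
  have it : ∀ n : ℕ, SE X q (min (n * (2 * ε)) κ) := by
    intro n
    induction n with
    | zero =>
      have : min (((0 : ℕ) : ℝ) * (2 * ε)) κ = 0 := by
        rw [Nat.cast_zero, zero_mul]; exact min_eq_left hκ
      rw [this]
      exact base hX q
    | succ n ih =>
      obtain ⟨c, hc, h⟩ := key (min (n * (2 * ε)) κ) (min ((n + 1 : ℕ) * (2 * ε)) κ)
        (le_min (by positivity) hκ) ((min_le_right _ _).trans_lt hκκ) (min_le_right _ _)
        (by
          rcases le_total (n * (2 * ε)) κ with h | h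
          · rw [min_eq_left h]
            refine (min_le_left _ _).trans (le_of_eq ?_)
            push_cast; ring
          · rw [min_eq_right h]
            exact (min_le_right _ _).trans (by linarith)) ih
      refine ⟨1, c, zero_le_one, hc, ?_⟩
      simpa only [one_mul] using h
  obtain ⟨n, hn⟩ := exists_nat_ge (κ / (2 * ε))
  have hn' : κ ≤ n * (2 * ε) := by rwa [div_le_iff₀ (by linarith)] at hn
  have h := it n
  rw [min_eq_right hn'] at h
  exact key κ κ hκ hκκ le_rfl (by linarith) h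

end

end

end Pool.Agent.Run7.h981.OH
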