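import Pool.Agent.N662.FP.Cl

/-!
# Cutting a path into pieces of bounded passage time
-/

set_option autoImplicit false
open Set
open scoped Pointwise Topology

namespace Pool.Agent.Run7.h981.OH

open Pool.Agent.N662.FP

/-- cutting a monotone sequence -/
theorem seg (P : ℕ → ℝ) (hP : Monotone P) (s : ℝ) (n : ℕ) : ∀ (N : ℕ) (i0 : ℕ), i0 ≤ n →
    P n - P i0 < N * s → 0 ≤ s → ∃ m < N, ∃ I K : ℕ → ℕ, I 0 = i0 ∧ K m = n ∧
      (∀ j ≤ m, I j ≤ K j ∧ K j ≤ n ∧ P (K j) - P (I j) ≤ s) ∧
      (∀ j < m, I (j + 1) = K j + 1 ∧ s < P (I (j + 1)) - P (I j)) := by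
  intro N
  induction N with
  | zero =>
    intro i0 h0 h1 _
    have := hP h0
    norm_num at h1
    linarith
  | succ N ih =>
    intro i0 h0 h1 hs
    by_cases h : P n - P i0 ≤ s
    · refine ⟨0, Nat.succ_pos N, fun _ => i0, fun _ => n, rfl, rfl, ?_, ?_⟩
      · intro j _
        exact ⟨h0, le_refl _, h⟩
      · intro j hj
        exact absurd hj (Nat.not_lt_zero j)
    · push Not at h
      have hex : ∃ i, i0 < i ∧ i ≤ n ∧ s < P i - P i0 := by
        refine ⟨n, lt_of_le_of_ne h0 ?_, le_refl _, h⟩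
        rintro rfl
        rw [sub_self] at h
        linarith
      classical
      obtain ⟨f1, f2, f3⟩ := Nat.find_spec hex
      have fmin : ∀ i, i0 < i → i < Nat.find hex → P i - P i0 ≤ s := by
        intro i hi1 hi2
        by_contra hc
        push Not at hc
        exact Nat.find_min hex hi2 ⟨hi1, by omega, hc⟩
      set i1 := Nat.find hex with hi1
      obtain ⟨m, hm, I, K, hI, hK, h2, h3⟩ := ih i1 f2 (by push_cast at h1; nlinarith) hs
      refine ⟨m + 1, by omega, fun j => if j = 0 then i0 else I (j - 1),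
        fun j => if j = 0 then i1 - 1 else K (j - 1), by simp, by simp [hK], ?_, ?_⟩
      · intro j hj
        by_cases hj0 : j = 0
        · subst hj0
          simp only [if_true]
          refine ⟨by omega, by omega, ?_⟩
          by_cases h5 : i0 < i1 - 1
          · exact fmin _ h5 (by omega)
          · have h6 : i1 - 1 = i0 := by omega
            rw [h6, sub_self]
            exact hs
        · simp only [if_neg hj0]
          exact h2 (j - 1) (by omega)
      · intro j hj
        by_cases hj0 : j = 0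
        · subst hj0
          simp only [if_true, zero_add, one_ne_zero, if_false, Nat.sub_self, hI]
          exact ⟨by omega, f3⟩
        · have e1 : j + 1 - 1 = (j - 1) + 1 := by omega
          simp only [if_neg hj0, Nat.succ_ne_zero, if_false, e1]
          exact h3 (j - 1) (by omega)

/-- telescoping -/
theorem tel {P : ℕ → ℝ} {s : ℝ} {m : ℕ} {I : ℕ → ℕ}
    (h : ∀ j < m, s < P (I (j + 1)) - P (I j)) (j : ℕ) : ∀ d : ℕ, j + d ≤ m →
    (d : ℝ) * s ≤ P (I (j + d)) - P (I j) := by
  intro d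
  induction d with
  | zero => intro _; simp
  | succ d ih =>
    intro hd
    have h1 := ih (by omega)
    have h2 := h (j + d) (by omega)
    rw [← add_assoc]
    push_cast
    linarith

/-- neighbouring sites -/
def Nb (u w : ℤ × ℤ) : Prop := |w.1 - u.1| + |w.2 - u.2| = 1

/-- the norm along the pieces -/
theorem norm_pieces (q : Seminorm ℝ (ℝ × ℝ)) (C0 : ℝ)
    (hC : ∀ u w : ℤ × ℤ, Nb u w → q (em w - em u) ≤ C0) {n m : ℕ} {p : ℕ → ℤ × ℤ}
    (hp : ∀ i < n, Nb (p i) (p (i + 1))) {I K : ℕ → ℕ}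
    (h2 : ∀ j ≤ m, I j ≤ K j ∧ K j ≤ n) (h3 : ∀ j < m, I (j + 1) = K j + 1) : ∀ l ≤ m,
    q (em (p (K l)) - em (p (I 0))) ≤
      (∑ j ∈ Finset.range (l + 1), q (em (p (K j)) - em (p (I j)))) + l * C0 := by
  intro l
  induction l with
  | zero => intro _; simp
  | succ l ih =>
    intro hl
    have h1 := ih (by omega)
    have h4 := h3 l (by omega)
    have h5 : q (em (p (I (l + 1))) - em (p (K l))) ≤ C0 := by
      rw [h4]
      have := h2 (l + 1) hl
      exact hC _ _ (hp _ (by omega))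
    have e : em (p (K (l + 1))) - em (p (I 0)) = (em (p (K (l + 1))) - em (p (I (l + 1)))) +
        ((em (p (I (l + 1))) - em (p (K l))) + (em (p (K l)) - em (p (I 0)))) := by abel
    rw [e, Finset.sum_range_succ]
    have h6 := map_add_le_add q (em (p (K (l + 1))) - em (p (I (l + 1))))
      ((em (p (I (l + 1))) - em (p (K l))) + (em (p (K l)) - em (p (I 0))))
    have h7 := map_add_le_add q (em (p (I (l + 1))) - em (p (K l))) (em (p (K l)) - em (p (I 0)))
    push_cast
    linarith

/-- a well spaced subset -/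
theorem pigeon (K1 k0 : ℕ) (hK1 : 0 < K1) (B : Finset ℕ) (h : K1 * k0 < B.card) :
    ∃ F ⊆ B, k0 < F.card ∧ ∀ j ∈ F, ∀ l ∈ F, j < l → K1 ≤ l - j := by
  obtain ⟨c, hc, h1⟩ := Finset.exists_lt_card_fiber_of_mul_lt_card_of_maps_to
    (s := B) (t := Finset.range K1) (f := fun j => j % K1) (n := k0)
    (fun j _ => Finset.mem_range.2 (Nat.mod_lt _ hK1)) (by rwa [Finset.card_range])
  refine ⟨_, Finset.filter_subset _ _, h1, ?_⟩
  intro j hj l hl hjl
  have h2 := (Finset.mem_filter.1 hj).2
  have h3 := (Finset.mem_filter.1 hl).2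
  have h4 : (l - j) % K1 = 0 := Nat.sub_mod_eq_zero_of_mod_eq (h3.trans h2.symm)
  exact Nat.le_of_dvd (by omega) (Nat.dvd_of_mod_eq_zero h4)

/-- many bad pieces -/
theorem many_bad (q : Seminorm ℝ (ℝ × ℝ)) (C0 : ℝ) (hC0 : 0 ≤ C0)
    (hC : ∀ u w : ℤ × ℤ, Nb u w → q (em w - em u) ≤ C0) {n : ℕ} {p : ℕ → ℤ × ℤ}
    (hp : ∀ i < n, Nb (p i) (p (i + 1))) (P : ℕ → ℝ) (hP : Monotone P) (hP0 : P 0 = 0) {s : ℝ}
    (hs : 0 ≤ s) {N : ℕ} (hN : P n < N * s) {r' R : ℝ} (hr : 0 ≤ r') (hR : 0 ≤ R)
    (hall : ∀ i k, i ≤ k → k ≤ n → P k - P i ≤ s → q (em (p k) - em (p i)) ≤ s + R)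
    (K1 k0 : ℕ) (hK1 : 0 < K1)
    (hbig : N * (s + r' + C0) + K1 * k0 * R < q (em (p n) - em (p 0))) :
    ∃ (F : Finset ℕ) (I K : ℕ → ℕ), k0 < F.card ∧
      (∀ j ∈ F, I j ≤ K j ∧ K j ≤ n ∧ P (K j) - P (I j) ≤ s ∧
        s + r' < q (em (p (K j)) - em (p (I j)))) ∧
      (∀ j ∈ F, ∀ l ∈ F, j < l → I j ≤ I l ∧ K1 * s ≤ P (I l) - P (I j)) := by
  classical
  obtain ⟨m, hm, I, K, hI, hK, h2, h3⟩ := seg P hP s n N 0 (Nat.zero_le _)
    (by rw [hP0, sub_zero]; exact hN) hs
  have h4 := norm_pieces q C0 hC hp (m := m) (I := I) (K := K)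
    (fun j hj => ⟨(h2 j hj).1, (h2 j hj).2.1⟩) (fun j hj => (h3 j hj).1) m le_rfl
  rw [hI, hK] at h4
  set B : Finset ℕ := (Finset.range (m + 1)).filter fun j =>
    s + r' < q (em (p (K j)) - em (p (I j))) with hB
  have h5 : (∑ j ∈ Finset.range (m + 1), q (em (p (K j)) - em (p (I j)))) ≤
      (m + 1) * (s + r') + B.card * R := by
    calc (∑ j ∈ Finset.range (m + 1), q (em (p (K j)) - em (p (I j))))
        ≤ ∑ j ∈ Finset.range (m + 1), ((s + r') + if s + r' < q (em (p (K j)) - em (p (I j)))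
            then R else 0) := by
          refine Finset.sum_le_sum fun j hj => ?_
          have hj' : j ≤ m := by have := Finset.mem_range.1 hj; omega
          split_ifs with h
          · have := hall (I j) (K j) (h2 j hj').1 (h2 j hj').2.1 (h2 j hj').2.2
            linarith
          · push Not at h
            linarith
      _ = (m + 1) * (s + r') + B.card * R := by
          rw [Finset.sum_add_distrib, Finset.sum_const, Finset.card_range, nsmul_eq_mul,
            ← Finset.sum_filter, Finset.sum_const, nsmul_eq_mul]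
          push_cast
          rfl
  have hmN : ((m : ℝ) + 1) ≤ N := by exact_mod_cast hm
  have h6 : ((K1 * k0 : ℕ) : ℝ) * R < B.card * R := by
    have e1 : ((m : ℝ) + 1) * (s + r') ≤ N * (s + r') :=
      mul_le_mul_of_nonneg_right hmN (by linarith)
    have e2 : (m : ℝ) * C0 ≤ N * C0 := mul_le_mul_of_nonneg_right (by linarith) hC0
    push_cast
    nlinarith
  have h7 : K1 * k0 < B.card := by
    by_contra hc
    push Not at hc
    have h8 : (B.card : ℝ) ≤ ((K1 * k0 : ℕ) : ℝ) := by exact_mod_cast hc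
    have := mul_le_mul_of_nonneg_right h8 hR
    linarith
  obtain ⟨F, hF, hF1, hF2⟩ := pigeon K1 k0 hK1 B h7
  refine ⟨F, I, K, hF1, ?_, ?_⟩
  · intro j hj
    obtain ⟨ha, hb⟩ := Finset.mem_filter.1 (hF hj)
    have hj' : j ≤ m := by have := Finset.mem_range.1 ha; omega
    exact ⟨(h2 j hj').1, (h2 j hj').2.1, (h2 j hj').2.2, hb⟩
  · intro j hj l hl hjl
    have h8 := hF2 j hj l hl hjl
    have hl' : l ≤ m := by
      have := Finset.mem_range.1 (Finset.mem_filter.1 (hF hl)).1; omega
    have h9 := tel (P := P) (s := s) (m := m) (I := I) (fun j hj => (h3 j hj).2) j (l - j)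
      (by omega)
    rw [show j + (l - j) = l by omega] at h9
    have h10 : (K1 : ℝ) * s ≤ ((l - j : ℕ) : ℝ) * s :=
      mul_le_mul_of_nonneg_right (by exact_mod_cast h8) hs
    refine ⟨?_, h10.trans h9⟩
    have hmono : ∀ d : ℕ, j + d ≤ m → I j ≤ I (j + d) := by
      intro d
      induction d with
      | zero => intro _; exact le_rfl
      | succ d ih =>
        intro hd
        have e1 := ih (by omega)
        have e2 := (h3 (j + d) (by omega)).1
        have e3 := (h2 (j + d) (by omega)).1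
        rw [← add_assoc, e2]
        omega
    have := hmono (l - j) (by omega)
    rwa [show j + (l - j) = l by omega] at this

end Pool.Agent.Run7.h981.OH
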