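import Pool.Agent.Run7.h981.OH.Main

/-!
# The finite-scale inequality for the lower tail
-/

set_option autoImplicit false
open MeasureTheory ProbabilityTheory Filter Set
open scoped ENNReal Pointwise Topology

namespace Pool.Agent.Run7.h981.OH

open Pool.Agent.N662.FP
open Pool.Agent.N390.FL.TI (sg sg_inj D_shift PS_shift)

noncomputable section

/-- at time `t` the cluster of the origin contains a point of norm larger than `t + r` -/
def Ov (q : Seminorm ℝ (ℝ × ℝ)) (t r : ℝ) : Set En := {x | ∃ v, D x 0 v ≤ t ∧ t + r < q (em v)}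

/-- the same for the positive parts of the weights -/
def Ovp (q : Seminorm ℝ (ℝ × ℝ)) (t r : ℝ) : Set En :=
  {x | ∃ v, D (fun e => max (x e) 0) 0 v ≤ t ∧ t + r < q (em v)}

theorem Ovp_meas (q : Seminorm ℝ (ℝ × ℝ)) (t r : ℝ) : MeasurableSet (Ovp q t r) := by
  have h : Ovp q t r = ⋃ v : ℤ × ℤ, {x : En | D (fun e => max (x e) 0) 0 v ≤ t ∧ t + r < q (em v)} := by
    ext x; simp [Ovp]
  rw [h]
  refine MeasurableSet.iUnion fun v => ?_
  by_cases hv : t + r < q (em v)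
  · have : {x : En | D (fun e => max (x e) 0) 0 v ≤ t ∧ t + r < q (em v)} =
        {x : En | D (fun e => max (x e) 0) 0 v ≤ t} := by ext x; simp [hv]
    rw [this]
    exact measurableSet_le (cME 0 v) measurable_const
  · have : {x : En | D (fun e => max (x e) 0) 0 v ≤ t ∧ t + r < q (em v)} = ∅ := by ext x; simp [hv]
    rw [this]
    exact MeasurableSet.empty

theorem Ovp_iff {q : Seminorm ℝ (ℝ × ℝ)} {t r : ℝ} {x : En} (hx : ∀ e, 0 ≤ x e) :
    x ∈ Ovp q t r ↔ x ∈ Ov q t r := by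
  have h : (fun e => max (x e) 0) = x := funext fun e => max_eq_left (hx e)
  unfold Ovp Ov
  simp only [mem_setOf_eq, h]

theorem U_meas (q : Seminorm ℝ (ℝ × ℝ)) (M : ℕ) (s r : ℝ) : MeasurableSet (U q M s r) := by
  have h : U q M s r = ⋃ b ∈ (box M : Finset (ℤ × ℤ)), {x : En | s + r < q (em b) ∧ ¬ Win x 0 b M s} := by
    ext x; simp only [U, mem_setOf_eq, mem_iUnion, exists_prop]
  rw [h]
  refine Finset.measurableSet_biUnion _ fun b _ => ?_
  have hw : MeasurableSet {x : En | Win x 0 b M s} := by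
    letI : MeasureSpace En := ⟨0⟩
    exact Pool.Agent.N327.FL.t_WM En (fun e x => x e) (fun e => measurable_pi_apply e) 0 b M s
  by_cases hb : s + r < q (em b)
  · have : {x : En | s + r < q (em b) ∧ ¬ Win x 0 b M s} = {x : En | Win x 0 b M s}ᶜ := by
      ext x; simp [hb]
    rw [this]
    exact hw.compl
  · have : {x : En | s + r < q (em b) ∧ ¬ Win x 0 b M s} = ∅ := by ext x; simp [hb]
    rw [this]
    exact MeasurableSet.empty

theorem U_sub {q : Seminorm ℝ (ℝ × ℝ)} {M : ℕ} {s r : ℝ} {x : En} (hx : ∀ e, 0 ≤ x e)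
    (h : x ∈ U q M s r) : x ∈ Ov q s r := by
  obtain ⟨b, _, h1, h2⟩ := h
  unfold Win at h2
  push Not at h2
  obtain ⟨n, _, p, p0, pn, hp, hs⟩ := h2
  exact ⟨b, (D_le hx ⟨n, p, p0, pn, hp, rfl⟩).trans hs.le, h1⟩

theorem exp_tail (w : ℝ) (hw : 0 ≤ w) :
    expMeasure 1 (Ioi w) = ENNReal.ofReal (Real.exp (-w)) := by
  haveI : IsProbabilityMeasure (expMeasure 1) := isProbabilityMeasure_expMeasure one_pos
  have h := cdf_expMeasure_eq one_pos w
  rw [if_pos hw, cdf_eq_real] at h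
  have h1 : Ioi w = (Iic w)ᶜ := by ext; simp
  have h2 : (expMeasure 1).real (Ioi w) = Real.exp (-w) := by
    rw [h1, probReal_compl_eq_one_sub measurableSet_Iic, h]
    norm_num
  rw [← h2, ofReal_measureReal]

section
variable {Ω : Type} [MeasureSpace Ω] [IsProbabilityMeasure (volume : Measure Ω)]
variable {X : Sym2 (ℤ × ℤ) → Ω → ℝ}

/-- the probability of `Ov` -/
def pO (X : Sym2 (ℤ × ℤ) → Ω → ℝ) (q : Seminorm ℝ (ℝ × ℝ)) (t r : ℝ) : ℝ≥0∞ :=
  (volume : Measure Ω) {ω | env X ω ∈ Ov q t r}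

theorem ae_nn (hX : Iid X) : ∀ᵐ ω ∂(volume : Measure Ω), ∀ e, 0 ≤ env X ω e := cAE Ω X hX

theorem pO_eq (hX : Iid X) (q : Seminorm ℝ (ℝ × ℝ)) (t r : ℝ) :
    pO X q t r = (volume : Measure Ω) {ω | env X ω ∈ Ovp q t r} := by
  unfold pO
  refine measure_congr ?_
  filter_upwards [ae_nn hX] with ω h
  exact propext (Ovp_iff h).symm

theorem pO_shift (hX : Iid X) (q : Seminorm ℝ (ℝ × ℝ)) (t r : ℝ) (z : ℤ × ℤ) :
    (volume : Measure Ω) {ω | sh z (env X ω) ∈ Ov q t r} = pO X q t r := by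
  rw [pO_eq hX, ← shift hX z (Ovp_meas q t r)]
  refine measure_congr ?_
  filter_upwards [ae_nn hX] with ω h
  exact propext (Ovp_iff (fun e => h _)).symm

theorem pU (hX : Iid X) (q : Seminorm ℝ (ℝ × ℝ)) (M : ℕ) (s r : ℝ) (z : ℤ × ℤ) :
    (volume : Measure Ω) {ω | env X ω ∈ {x : En | sh z x ∈ U q M s r}} ≤ pO X q s r := by
  rw [← pO_shift hX q s r z]
  refine measure_mono_ae ?_
  filter_upwards [ae_nn hX] with ω h
  exact fun h1 => U_sub (fun e => h _) h1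

/-- the translated weights -/
theorem Iid_sg (hX : Iid X) (z : ℤ × ℤ) : Iid fun e => X (sg z e) :=
  ⟨fun e => hX.meas _, hX.ind.precomp (sg_inj z), fun e => hX.law _⟩

theorem fast_le (hX : Iid X) (z : ℤ × ℤ) (n : ℕ) :
    (volume : Measure Ω) {ω | Fast (sh z (env X ω)) n} ≤ (1 / 2 : ℝ≥0∞) ^ n :=
  Pool.Agent.N896.FM.t_CNT Ω _ (Iid_sg hX z) n

theorem geom_tail (M : ℕ) : ∑' n : ℕ, (1 / 2 : ℝ≥0∞) ^ (M + 1 + n) = (1 / 2 : ℝ≥0∞) ^ M := by
  have h : ∀ n : ℕ, (1 / 2 : ℝ≥0∞) ^ (M + 1 + n) = (1 / 2 : ℝ≥0∞) ^ (M + 1) * (1 / 2 : ℝ≥0∞) ^ n :=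
    fun n => pow_add _ _ _
  simp_rw [h]
  rw [ENNReal.tsum_mul_left, ENNReal.tsum_geometric, pow_succ, mul_assoc]
  have : (1 / 2 : ℝ≥0∞) * (1 - 1 / 2)⁻¹ = 1 := by
    rw [one_div, ENNReal.one_sub_inv_two, inv_inv]
    exact ENNReal.inv_mul_cancel (by norm_num) (by norm_num)
  rw [this, mul_one]

/-- **the finite-scale inequality** -/
theorem fin_scale (hX : Iid X) (q : Seminorm ℝ (ℝ × ℝ)) {C0 : ℝ}
    (hC' : ∀ w : ℤ × ℤ, q (em w) ≤ C0 * ((|w.1| + |w.2| : ℤ) : ℝ)) (hC0 : 0 ≤ C0)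
    {ρ M l : ℕ} (hl : 0 < l) {w0 : ℝ} (hw0 : 0 < w0) {s R : ℝ} (hs : 0 ≤ s) (hR : 0 ≤ R)
    {t r s1 r1 : ℝ} {N K1 k : ℕ} (hN : t + 1 ≤ N * s) (hρ : 25 * (t + 1) ≤ ρ + 1) (hMρ : M ≤ ρ)
    (hs1 : s + 2 * l * w0 < s1) (hM : 25 * s1 ≤ M + 1) (hr1 : 0 ≤ r1)
    (hbig : N * (s + ((s1 - s) + r1 + 2 * l * C0) + C0) + K1 * k * R ≤ t + r)
    (hK : 2 * w0 * (2 * M + 2 * l) + 1 < K1 * s) (hK1 : 0 < K1) :
    pO X q t r ≤ ((box (ρ + l)).card : ℝ≥0∞) ^ 2 * ENNReal.ofReal (Real.exp (-w0)) +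
      ((box (ρ + l)).card : ℝ≥0∞) * (1 / 2 : ℝ≥0∞) ^ M +
      ((box ρ).card : ℝ≥0∞) * pO X q s R + (((Net ρ l).card : ℝ≥0∞) * pO X q s1 r1) ^ k := by
  classical
  set A1 : Set Ω := {ω | ∃ u ∈ box (ρ + l), ∃ w ∈ box (ρ + l), w0 < env X ω s(u, w)} with hA1
  set A2 : Set Ω := {ω | ∃ z ∈ box (ρ + l), ∃ n, M < n ∧ Fast (sh z (env X ω)) n} with hA2
  set A3 : Set Ω := {ω | ∃ a ∈ box ρ, sh a (env X ω) ∈ Ov q s R} with hA3
  set A4 : Set Ω := {ω | ∃ Z ⊆ Net ρ l, Z.card = k ∧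
    (∀ z ∈ Z, ∀ w ∈ Z, z ≠ w → Disjoint (EM M z) (EM M w)) ∧
      ∀ z ∈ Z, env X ω ∈ {x : En | sh z x ∈ U q M s1 r1}} with hA4
  have hsub : ∀ᵐ ω ∂(volume : Measure Ω), ω ∈ {ω | env X ω ∈ Ov q t r} → ω ∈ ((A1 ∪ A2) ∪ A3) ∪ A4 := by
    filter_upwards [ae_nn hX] with ω hx hω
    obtain ⟨v, hv, hqv⟩ := hω
    by_cases h1 : ω ∈ A1
    · exact Or.inl (Or.inl (Or.inl h1))
    by_cases h2 : ω ∈ A2
    · exact Or.inl (Or.inl (Or.inr h2))
    by_cases h3 : ω ∈ A3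
    · exact Or.inl (Or.inr h3)
    right
    refine geo q hC' hC0 hx hl hw0 ?_ ?_ hs hR ?_ hN hρ hMρ hs1 hM hr1 hbig hK hK1 hv hqv
    · intro u hu w hw _
      by_contra hc
      push Not at hc
      exact h1 ⟨u, hu, w, hw, hc⟩
    · intro z hz n hn hf
      exact h2 ⟨z, hz, n, hn, hf⟩
    · intro a ha b hab
      by_contra hc
      push Not at hc
      refine h3 ⟨a, ha, b - a, ?_, ?_⟩
      · have := D_shift (env X ω) a (b - a)
        rw [add_sub_cancel] at this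
        rw [this] at hab
        exact hab
      · rw [em_sub]; exact hc
  have e1 : (volume : Measure Ω) A1 ≤ ((box (ρ + l)).card : ℝ≥0∞) ^ 2 *
      ENNReal.ofReal (Real.exp (-w0)) := by
    have h1 : A1 ⊆ ⋃ uw ∈ (box (ρ + l) ×ˢ box (ρ + l) : Finset _),
        {ω : Ω | w0 < env X ω s(uw.1, uw.2)} := by
      rintro ω ⟨u, hu, w, hw, h⟩
      exact mem_iUnion₂.2 ⟨(u, w), Finset.mem_product.2 ⟨hu, hw⟩, h⟩
    have h2 : ∀ e, (volume : Measure Ω) {ω : Ω | w0 < env X ω e} =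
        ENNReal.ofReal (Real.exp (-w0)) := by
      intro e
      rw [← exp_tail w0 hw0.le, ← hX.law e, Measure.map_apply (hX.meas e) measurableSet_Ioi]
      rfl
    calc (volume : Measure Ω) A1 ≤ ∑ uw ∈ (box (ρ + l) ×ˢ box (ρ + l) : Finset _),
          (volume : Measure Ω) {ω : Ω | w0 < env X ω s(uw.1, uw.2)} :=
          (measure_mono h1).trans (measure_biUnion_finset_le _ _)
      _ = _ := by
          simp_rw [h2]
          rw [Finset.sum_const, Finset.card_product, nsmul_eq_mul]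
          push_cast
          ring
  have e2 : (volume : Measure Ω) A2 ≤ ((box (ρ + l)).card : ℝ≥0∞) * (1 / 2 : ℝ≥0∞) ^ M := by
    have h1 : A2 ⊆ ⋃ z ∈ box (ρ + l), ⋃ n : ℕ, {ω : Ω | Fast (sh z (env X ω)) (M + 1 + n)} := by
      rintro ω ⟨z, hz, n, hn, h⟩
      refine mem_iUnion₂.2 ⟨z, hz, mem_iUnion.2 ⟨n - (M + 1), ?_⟩⟩
      show Fast _ _
      rw [show M + 1 + (n - (M + 1)) = n by omega]
      exact h
    calc (volume : Measure Ω) A2 ≤ ∑ z ∈ box (ρ + l),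
          (volume : Measure Ω) (⋃ n : ℕ, {ω : Ω | Fast (sh z (env X ω)) (M + 1 + n)}) :=
          (measure_mono h1).trans (measure_biUnion_finset_le _ _)
      _ ≤ ∑ z ∈ box (ρ + l), (1 / 2 : ℝ≥0∞) ^ M := by
          refine Finset.sum_le_sum fun z _ => ?_
          refine (measure_iUnion_le _).trans ?_
          rw [← geom_tail M]
          exact ENNReal.tsum_le_tsum fun n => fast_le hX z _
      _ = _ := by rw [Finset.sum_const, nsmul_eq_mul]
  have e3 : (volume : Measure Ω) A3 ≤ ((box ρ).card : ℝ≥0∞) * pO X q s R := by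
    have h1 : A3 ⊆ ⋃ a ∈ box ρ, {ω : Ω | sh a (env X ω) ∈ Ov q s R} := by
      rintro ω ⟨a, ha, h⟩
      exact mem_iUnion₂.2 ⟨a, ha, h⟩
    calc (volume : Measure Ω) A3 ≤ ∑ a ∈ box ρ,
          (volume : Measure Ω) {ω : Ω | sh a (env X ω) ∈ Ov q s R} :=
          (measure_mono h1).trans (measure_biUnion_finset_le _ _)
      _ = _ := by
          simp_rw [pO_shift hX]
          rw [Finset.sum_const, nsmul_eq_mul]
  have e4 : (volume : Measure Ω) A4 ≤ (((Net ρ l).card : ℝ≥0∞) * pO X q s1 r1) ^ k :=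
    many_sep hX (EM M) (fun z => {x : En | sh z x ∈ U q M s1 r1})
      (fun z => sh_meas z (U_meas q M s1 r1)) (fun z => U_dep q M s1 r1 z) _
      (fun z => pU hX q M s1 r1 z) (Net ρ l) k
  calc pO X q t r ≤ (volume : Measure Ω) (((A1 ∪ A2) ∪ A3) ∪ A4) := measure_mono_ae hsub
    _ ≤ (volume : Measure Ω) ((A1 ∪ A2) ∪ A3) + (volume : Measure Ω) A4 := measure_union_le _ _
    _ ≤ ((volume : Measure Ω) (A1 ∪ A2) + (volume : Measure Ω) A3) + (volume : Measure Ω) A4 := by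
        gcongr; exact measure_union_le _ _
    _ ≤ (((volume : Measure Ω) A1 + (volume : Measure Ω) A2) + (volume : Measure Ω) A3) +
        (volume : Measure Ω) A4 := by
        gcongr; exact measure_union_le _ _
    _ ≤ _ := by gcongr

end

end

end Pool.Agent.Run7.h981.OH
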