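import Pool.Agent.N662.FP.Cl

/-!
# Independence and shifts of local events of first-passage percolation
-/

set_option autoImplicit false
open MeasureTheory ProbabilityTheory Filter Set
open scoped ENNReal Pointwise Topology

namespace Pool.Agent.Run7.h981.OH

open Pool.Agent.N662.FP
open Pool.Agent.N390.FL.TI (sg sg_inj D_shift)

/-- environments -/
abbrev En : Type := Sym2 (ℤ × ℤ) → ℝ

/-- `A` depends only on the edges of `S` -/
def Dep (A : Set En) (S : Finset (Sym2 (ℤ × ℤ))) : Prop :=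
  ∀ x y : En, (∀ e ∈ S, x e = y e) → (x ∈ A ↔ y ∈ A)

open Classical in
/-- extension by zero -/
noncomputable def ext0 (S : Finset (Sym2 (ℤ × ℤ))) (y : S → ℝ) : En :=
  fun e => if h : e ∈ S then y ⟨e, h⟩ else 0

theorem ext0_meas (S : Finset (Sym2 (ℤ × ℤ))) : Measurable (ext0 S) := by
  classical
  refine measurable_pi_iff.2 fun e => ?_
  unfold ext0
  by_cases h : e ∈ S
  · simp only [h, dif_pos]
    exact measurable_pi_apply _
  · simp only [h, dif_neg, not_false_eq_true]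
    exact measurable_const

section
variable {Ω : Type} [MeasureSpace Ω] [IsProbabilityMeasure (volume : Measure Ω)]
variable {X : Sym2 (ℤ × ℤ) → Ω → ℝ}

theorem two (hX : Iid X) {S T : Finset (Sym2 (ℤ × ℤ))} (hST : Disjoint S T) {A B : Set En}
    (hA : MeasurableSet A) (hB : MeasurableSet B) (dA : Dep A S) (dB : Dep B T) :
    (volume : Measure Ω) {ω | env X ω ∈ A ∧ env X ω ∈ B} =
      (volume : Measure Ω) {ω | env X ω ∈ A} * (volume : Measure Ω) {ω | env X ω ∈ B} := by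
  classical
  have h := hX.ind.indepFun_finset S T hST hX.meas
  have e1 : ∀ (R : Finset (Sym2 (ℤ × ℤ))) (C : Set En), Dep C R → ∀ ω : Ω,
      (env X ω ∈ C ↔ (fun i : R => X i ω) ∈ ext0 R ⁻¹' C) := by
    intro R C hC ω
    refine hC _ _ fun e he => ?_
    show X e ω = ext0 R (fun i : R => X i ω) e
    unfold ext0
    rw [dif_pos he]
  have h2 := h.measure_inter_preimage_eq_mul (ext0 S ⁻¹' A) (ext0 T ⁻¹' B) (ext0_meas S hA)
    (ext0_meas T hB)
  have a1 : {ω | env X ω ∈ A} = (fun ω (i : S) => X i ω) ⁻¹' (ext0 S ⁻¹' A) := by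
    ext ω; exact e1 S A dA ω
  have a2 : {ω | env X ω ∈ B} = (fun ω (i : T) => X i ω) ⁻¹' (ext0 T ⁻¹' B) := by
    ext ω; exact e1 T B dB ω
  have a3 : {ω | env X ω ∈ A ∧ env X ω ∈ B} = {ω | env X ω ∈ A} ∩ {ω | env X ω ∈ B} := rfl
  rw [a3, a1, a2]
  exact h2

theorem many (hX : Iid X) (E : ℤ × ℤ → Finset (Sym2 (ℤ × ℤ))) (A : ℤ × ℤ → Set En)
    (hA : ∀ z, MeasurableSet (A z)) (dA : ∀ z, Dep (A z) (E z)) (Z : Finset (ℤ × ℤ))
    (hZ : ∀ z ∈ Z, ∀ w ∈ Z, z ≠ w → Disjoint (E z) (E w)) :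
    (volume : Measure Ω) {ω | ∀ z ∈ Z, env X ω ∈ A z} =
      ∏ z ∈ Z, (volume : Measure Ω) {ω | env X ω ∈ A z} := by
  classical
  induction Z using Finset.induction_on with
  | empty => simp
  | insert z Z hz ih =>
    rw [Finset.prod_insert hz, ← ih (fun a ha b hb => hZ a (Finset.mem_insert_of_mem ha) b
      (Finset.mem_insert_of_mem hb))]
    have hB : MeasurableSet {x : En | ∀ w ∈ Z, x ∈ A w} := by
      have : {x : En | ∀ w ∈ Z, x ∈ A w} = ⋂ w ∈ Z, A w := by ext; simp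
      rw [this]
      exact Finset.measurableSet_biInter _ fun w _ => hA w
    have dB : Dep {x : En | ∀ w ∈ Z, x ∈ A w} (Z.biUnion E) := by
      intro x y hxy
      refine forall₂_congr fun w hw => dA w x y fun e he => hxy e ?_
      exact Finset.mem_biUnion.2 ⟨w, hw, he⟩
    have hd : Disjoint (E z) (Z.biUnion E) := by
      rw [Finset.disjoint_biUnion_right]
      intro w hw
      exact hZ z (Finset.mem_insert_self _ _) w (Finset.mem_insert_of_mem hw)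
        (fun h => hz (h ▸ hw))
    refine Eq.trans ?_ (two hX hd (hA z) hB (dA z) dB)
    congr 1
    ext ω
    simp only [Finset.mem_insert, forall_eq_or_imp, mem_setOf_eq]

/-- the shifted environment -/
def sh (z : ℤ × ℤ) (x : En) : En := fun e => x (sg z e)

theorem sh_meas (z : ℤ × ℤ) : Measurable (sh z) :=
  measurable_pi_iff.2 fun e => measurable_pi_apply (sg z e)

/-- shift invariance -/
theorem shift (hX : Iid X) (z : ℤ × ℤ) {U : Set En} (hU : MeasurableSet U) :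
    (volume : Measure Ω) {ω | sh z (env X ω) ∈ U} = (volume : Measure Ω) {ω | env X ω ∈ U} := by
  have m1 : Measurable (fun ω (e : Sym2 (ℤ × ℤ)) => X (sg z e) ω) :=
    measurable_pi_iff.2 fun e => hX.meas _
  have m2 : Measurable (fun ω (e : Sym2 (ℤ × ℤ)) => X e ω) := measurable_pi_iff.2 fun e => hX.meas e
  have l1 : Measure.map (fun ω (e : Sym2 (ℤ × ℤ)) => X (sg z e) ω) (volume : Measure Ω) =
      Measure.infinitePi (fun _ : Sym2 (ℤ × ℤ) => expMeasure 1) := by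
    have h3 : iIndepFun (fun e => X (sg z e)) (volume : Measure Ω) := hX.ind.precomp (sg_inj z)
    have h4 := (iIndepFun_iff_map_fun_eq_infinitePi_map (fun e => hX.meas (sg z e))).1 h3
    rw [h4]
    congr 1
    funext e
    exact hX.law _
  have l2 : Measure.map (fun ω (e : Sym2 (ℤ × ℤ)) => X e ω) (volume : Measure Ω) =
      Measure.infinitePi (fun _ : Sym2 (ℤ × ℤ) => expMeasure 1) := by
    have h4 := (iIndepFun_iff_map_fun_eq_infinitePi_map hX.meas).1 hX.ind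
    rw [h4]
    congr 1
    funext e
    exact hX.law _
  have e1 : {ω | sh z (env X ω) ∈ U} = (fun ω (e : Sym2 (ℤ × ℤ)) => X (sg z e) ω) ⁻¹' U := rfl
  have e2 : {ω | env X ω ∈ U} = (fun ω (e : Sym2 (ℤ × ℤ)) => X e ω) ⁻¹' U := rfl
  rw [e1, e2, ← Measure.map_apply m1 hU, ← Measure.map_apply m2 hU, l1, l2]

end

/-- union bound over finite sets of given size -/
theorem many_sep {Ω : Type} [MeasureSpace Ω] [IsProbabilityMeasure (volume : Measure Ω)]
    {X : Sym2 (ℤ × ℤ) → Ω → ℝ} (hX : Iid X) (E : ℤ × ℤ → Finset (Sym2 (ℤ × ℤ)))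
    (A : ℤ × ℤ → Set En) (hA : ∀ z, MeasurableSet (A z)) (dA : ∀ z, Dep (A z) (E z))
    (p : ℝ≥0∞) (hp : ∀ z, (volume : Measure Ω) {ω | env X ω ∈ A z} ≤ p) (W : Finset (ℤ × ℤ))
    (k : ℕ) :
    (volume : Measure Ω) {ω | ∃ Z ⊆ W, Z.card = k ∧
      (∀ z ∈ Z, ∀ w ∈ Z, z ≠ w → Disjoint (E z) (E w)) ∧ ∀ z ∈ Z, env X ω ∈ A z} ≤
      ((W.card : ℝ≥0∞) * p) ^ k := by
  classical
  set 𝒵 : Finset (Finset (ℤ × ℤ)) := (W.powersetCard k).filter fun Z =>
    ∀ z ∈ Z, ∀ w ∈ Z, z ≠ w → Disjoint (E z) (E w)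
  have h1 : {ω : Ω | ∃ Z ⊆ W, Z.card = k ∧
      (∀ z ∈ Z, ∀ w ∈ Z, z ≠ w → Disjoint (E z) (E w)) ∧ ∀ z ∈ Z, env X ω ∈ A z} ⊆
      ⋃ Z ∈ 𝒵, {ω : Ω | ∀ z ∈ Z, env X ω ∈ A z} := by
    rintro ω ⟨Z, hZ1, hZ2, hZ3, hZ4⟩
    refine mem_iUnion₂.2 ⟨Z, ?_, hZ4⟩
    exact Finset.mem_filter.2 ⟨Finset.mem_powersetCard.2 ⟨hZ1, hZ2⟩, hZ3⟩
  have h2 : ∀ Z ∈ 𝒵, (volume : Measure Ω) {ω : Ω | ∀ z ∈ Z, env X ω ∈ A z} ≤ p ^ k := by
    intro Z hZ
    obtain ⟨ha, hb⟩ := Finset.mem_filter.1 hZ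
    obtain ⟨_, hc⟩ := Finset.mem_powersetCard.1 ha
    rw [many hX E A hA dA Z hb]
    calc ∏ z ∈ Z, (volume : Measure Ω) {ω | env X ω ∈ A z} ≤ ∏ _z ∈ Z, p :=
          Finset.prod_le_prod' fun z _ => hp z
      _ = p ^ k := by rw [Finset.prod_const, hc]
  calc (volume : Measure Ω) _ ≤ ∑ Z ∈ 𝒵, (volume : Measure Ω) {ω : Ω | ∀ z ∈ Z, env X ω ∈ A z} :=
        (measure_mono h1).trans (measure_biUnion_finset_le _ _)
    _ ≤ ∑ Z ∈ 𝒵, p ^ k := Finset.sum_le_sum h2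
    _ = (𝒵.card : ℝ≥0∞) * p ^ k := by rw [Finset.sum_const, nsmul_eq_mul]
    _ ≤ ((W.card : ℝ≥0∞) ^ k) * p ^ k := by
        gcongr
        have h3 : 𝒵.card ≤ W.card ^ k := by
          calc 𝒵.card ≤ (W.powersetCard k).card := Finset.card_filter_le _ _
            _ = W.card.choose k := Finset.card_powersetCard _ _
            _ ≤ W.card ^ k := Nat.choose_le_pow _ _
        exact_mod_cast h3
    _ = ((W.card : ℝ≥0∞) * p) ^ k := by rw [mul_pow]

end Pool.Agent.Run7.h981.OH
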