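import Pool.Agent.Run7.h981.OH.Det
import Pool.Agent.Run7.h981.OH.Prob

/-!
# A fast path contains many separated bad places
-/

set_option autoImplicit false
open Set
open scoped Pointwise Topology

namespace Pool.Agent.Run7.h981.OH

open Pool.Agent.N662.FP
open Pool.Agent.N390.FL.TI (sg sg_inj D_shift PS_shift)

noncomputable section

/-- boxes -/
def box (r : ℕ) : Finset (ℤ × ℤ) := Finset.Icc (-(r : ℤ)) r ×ˢ Finset.Icc (-(r : ℤ)) r

theorem mem_box {r : ℕ} {z : ℤ × ℤ} : z ∈ box r ↔ |z.1| ≤ r ∧ |z.2| ≤ r := by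
  unfold box
  rw [Finset.mem_product, Finset.mem_Icc, Finset.mem_Icc, abs_le, abs_le]

section
variable {x : En}

theorem D_le (hx : ∀ e, 0 ≤ x e) {a v : ℤ × ℤ} {s : ℝ} (h : s ∈ PS x a v) : D x a v ≤ s :=
  csInf_le (cGE x hx a v).2.1 h

theorem D_nn (hx : ∀ e, 0 ≤ x e) (a v : ℤ × ℤ) : 0 ≤ D x a v := (cGE x hx a v).2.2.1

/-- the passage time of a part of a path -/
theorem part {n : ℕ} {p : ℕ → ℤ × ℤ}
    (hp : ∀ i < n, |(p (i + 1)).1 - (p i).1| + |(p (i + 1)).2 - (p i).2| = 1) {i k : ℕ}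
    (hik : i ≤ k) (hk : k ≤ n) :
    (∑ j ∈ Finset.range k, x s(p j, p (j + 1))) - ∑ j ∈ Finset.range i, x s(p j, p (j + 1)) ∈
      PS x (p i) (p k) := by
  refine ⟨k - i, fun j => p (i + j), by simp, ?_, ?_, ?_⟩
  · show p (i + (k - i)) = p k
    congr 1; omega
  · intro j hj
    exact hp (i + j) (by omega)
  · have e : k = i + (k - i) := by omega
    conv_lhs => rw [e]
    rw [Finset.sum_range_add]
    simp only [add_assoc]
    ring

theorem D_edge (hx : ∀ e, 0 ≤ x e) {u w : ℤ × ℤ} (h : Nb u w) : D x u w ≤ x s(u, w) := by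
  refine D_le hx ⟨1, fun i => if i = 0 then u else w, by simp, by simp, ?_, by simp⟩
  intro i hi
  have : i = 0 := by omega
  subst this
  simpa [Nb] using h

/-- bounded weights in a box -/
theorem D_box (hx : ∀ e, 0 ≤ x e) {r : ℕ} {w0 : ℝ}
    (hw : ∀ u ∈ box r, ∀ w ∈ box r, Nb u w → x s(u, w) ≤ w0) : ∀ (m : ℕ) (a b : ℤ × ℤ),
    a ∈ box r → b ∈ box r → |b.1 - a.1| + |b.2 - a.2| = (m : ℤ) → D x a b ≤ w0 * m := by
  intro m
  induction m with
  | zero =>
    intro a b _ _ h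
    have h1 : a = b := by
      have e1 := abs_nonneg (b.1 - a.1)
      have e2 := abs_nonneg (b.2 - a.2)
      have e3 : |b.1 - a.1| = 0 := by push_cast at h; omega
      have e4 : |b.2 - a.2| = 0 := by push_cast at h; omega
      have e5 := abs_eq_zero.1 e3
      have e6 := abs_eq_zero.1 e4
      exact Prod.ext (by omega) (by omega)
    subst h1
    have : D x a a ≤ 0 := D_le hx ⟨0, fun _ => a, rfl, rfl, fun i hi => absurd hi (Nat.not_lt_zero i),
      by simp⟩
    simpa using this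
  | succ m ih =>
    intro a b ha hb h
    rw [mem_box] at ha hb
    have key : ∃ c : ℤ × ℤ, c ∈ box r ∧ Nb a c ∧ |b.1 - c.1| + |b.2 - c.2| = (m : ℤ) := by
      rw [show ((m + 1 : ℕ) : ℤ) = m + 1 by push_cast; rfl] at h
      obtain ⟨ha1, ha2⟩ := ha
      obtain ⟨hb1, hb2⟩ := hb
      rw [abs_le] at ha1 ha2 hb1 hb2
      rcases lt_trichotomy a.1 b.1 with h1 | h1 | h1
      · refine ⟨(a.1 + 1, a.2), ?_, ?_, ?_⟩
        · rw [mem_box]; simp only [abs_le]; omega
        · unfold Nb; simp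
        · simp only
          rw [abs_of_pos (by omega)] at h
          rw [abs_of_nonneg (by omega)]
          omega
      · rcases lt_trichotomy a.2 b.2 with h2 | h2 | h2
        · refine ⟨(a.1, a.2 + 1), ?_, ?_, ?_⟩
          · rw [mem_box]; simp only [abs_le]; omega
          · unfold Nb; simp
          · simp only
            rw [abs_of_pos (show 0 < b.2 - a.2 by omega)] at h
            rw [abs_of_nonneg (show 0 ≤ b.2 - (a.2 + 1) by omega)]
            omega
        · exfalso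
          rw [h1, h2] at h
          simp at h
          omega
        · refine ⟨(a.1, a.2 - 1), ?_, ?_, ?_⟩
          · rw [mem_box]; simp only [abs_le]; omega
          · unfold Nb; simp
          · simp only
            rw [abs_of_neg (show b.2 - a.2 < 0 by omega)] at h
            rw [abs_of_nonpos (show b.2 - (a.2 - 1) ≤ 0 by omega)]
            omega
      · refine ⟨(a.1 - 1, a.2), ?_, ?_, ?_⟩
        · rw [mem_box]; simp only [abs_le]; omega
        · unfold Nb; simp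
        · simp only
          rw [abs_of_neg (show b.1 - a.1 < 0 by omega)] at h
          rw [abs_of_nonpos (show b.1 - (a.1 - 1) ≤ 0 by omega)]
          omega
    obtain ⟨c, hc, hac, hcb⟩ := key
    have h1 := cTRI x hx a c b
    have h2 := (D_edge hx hac).trans (hw a (mem_box.2 ha) c hc hac)
    have h3 := ih c b hc (mem_box.2 hb) hcb
    push_cast
    linarith

end

/-- the edges in a box -/
def E0 (M : ℕ) : Finset (Sym2 (ℤ × ℤ)) := (box M ×ˢ box M).image fun q => s(q.1, q.2)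

/-- the shifted edges -/
def EM (M : ℕ) (z : ℤ × ℤ) : Finset (Sym2 (ℤ × ℤ)) := (E0 M).image (sg z)

/-- paths from the origin stay in boxes -/
theorem path_box {n : ℕ} {p : ℕ → ℤ × ℤ} (h0 : p 0 = 0)
    (hp : ∀ i < n, |(p (i + 1)).1 - (p i).1| + |(p (i + 1)).2 - (p i).2| = 1) : ∀ i ≤ n,
    |(p i).1| ≤ i ∧ |(p i).2| ≤ i := by
  intro i
  induction i with
  | zero => intro _; rw [h0]; simp
  | succ i ih =>
    intro hi
    obtain ⟨h1, h2⟩ := ih (by omega)
    have h3 := hp i (by omega)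
    have e1 := abs_nonneg ((p (i + 1)).1 - (p i).1)
    have e2 := abs_nonneg ((p (i + 1)).2 - (p i).2)
    have e3 : |(p (i + 1)).1 - (p i).1| ≤ 1 := by omega
    have e4 : |(p (i + 1)).2 - (p i).2| ≤ 1 := by omega
    push_cast
    rw [abs_le] at h1 h2 e3 e4
    exact ⟨abs_le.2 (by omega), abs_le.2 (by omega)⟩

theorem win_dep {M n : ℕ} (hn : n ≤ M) {x y : En} (h : ∀ e ∈ E0 M, x e = y e) {b : ℤ × ℤ} {t : ℝ}
    (hw : Win x 0 b n t) : Win y 0 b n t := by
  intro k hk p h0 hb hp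
  refine (hw k hk p h0 hb hp).trans (le_of_eq ?_)
  refine Finset.sum_congr rfl fun i hi => ?_
  have hi' := Finset.mem_range.1 hi
  refine h _ (Finset.mem_image.2 ⟨(p i, p (i + 1)), ?_, rfl⟩)
  have h1 := path_box h0 hp i (by omega)
  have h2 := path_box h0 hp (i + 1) (by omega)
  rw [Finset.mem_product, mem_box, mem_box]
  push_cast at h2
  have e1 : (i : ℤ) + 1 ≤ M := by omega
  exact ⟨⟨by linarith [h1.1], by linarith [h1.2]⟩, ⟨by linarith [h2.1], by linarith [h2.2]⟩⟩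

/-- the local bad event -/
def U (q : Seminorm ℝ (ℝ × ℝ)) (M : ℕ) (s r : ℝ) : Set En :=
  {x | ∃ b ∈ box M, s + r < q (em b) ∧ ¬ Win x 0 b M s}

theorem U_dep (q : Seminorm ℝ (ℝ × ℝ)) (M : ℕ) (s r : ℝ) (z : ℤ × ℤ) :
    Dep {x : En | sh z x ∈ U q M s r} (EM M z) := by
  have key : ∀ x y : En, (∀ e ∈ EM M z, x e = y e) → sh z x ∈ U q M s r → sh z y ∈ U q M s r := by
    rintro x y h ⟨b, hb, h1, h2⟩
    refine ⟨b, hb, h1, fun h3 => h2 ?_⟩
    refine win_dep (le_refl M) (fun e he => ?_) h3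
    exact (h _ (Finset.mem_image_of_mem _ he)).symm
  intro x y h
  exact ⟨key x y h, key y x fun e he => (h e he).symm⟩

theorem EM_disj {M : ℕ} {z w : ℤ × ℤ} (h : 2 * (M : ℤ) < |z.1 - w.1| ∨ 2 * (M : ℤ) < |z.2 - w.2|) :
    Disjoint (EM M z) (EM M w) := by
  rw [Finset.disjoint_left]
  intro e h1 h2
  obtain ⟨e1, he1, rfl⟩ := Finset.mem_image.1 h1
  obtain ⟨e2, he2, h3⟩ := Finset.mem_image.1 h2
  obtain ⟨⟨a, b⟩, hab, rfl⟩ := Finset.mem_image.1 he1
  obtain ⟨⟨c, d⟩, hcd, rfl⟩ := Finset.mem_image.1 he2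
  rw [Finset.mem_product, mem_box, mem_box] at hab hcd
  simp only [sg, Sym2.map_mk] at h3
  have h4 : w + c = z + a ∨ w + d = z + a := by
    rcases Sym2.eq_iff.1 h3 with h5 | h5
    · exact Or.inl h5.1
    · exact Or.inr h5.2
  obtain ⟨⟨ha1, ha2⟩, _⟩ := hab
  obtain ⟨⟨hc1, hc2⟩, hd1, hd2⟩ := hcd
  simp only [abs_le] at ha1 ha2 hc1 hc2 hd1 hd2
  rcases h4 with h4 | h4
  · have e1 := congrArg Prod.fst h4
    have e2 := congrArg Prod.snd h4
    simp only [Prod.fst_add, Prod.snd_add] at e1 e2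
    rcases h with h | h <;> rw [lt_abs] at h <;> omega
  · have e1 := congrArg Prod.fst h4
    have e2 := congrArg Prod.snd h4
    simp only [Prod.fst_add, Prod.snd_add] at e1 e2
    rcases h with h | h <;> rw [lt_abs] at h <;> omega

/-- the net -/
def Net (r l : ℕ) : Finset (ℤ × ℤ) := (box (r / l + 1)).image fun z => ((l : ℤ) * z.1, (l : ℤ) * z.2)

/-- rounding -/
def rd (l : ℕ) (a : ℤ × ℤ) : ℤ × ℤ := ((l : ℤ) * (a.1 / l), (l : ℤ) * (a.2 / l))

theorem rd_mem {r l : ℕ} (hl : 0 < l) {a : ℤ × ℤ} (ha : a ∈ box r) : rd l a ∈ Net r l := by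
  refine Finset.mem_image.2 ⟨(a.1 / l, a.2 / l), ?_, rfl⟩
  rw [mem_box] at ha ⊢
  have hl' : (0 : ℤ) < l := by exact_mod_cast hl
  have key : ∀ c : ℤ, |c| ≤ r → |c / l| ≤ ((r / l + 1 : ℕ) : ℤ) := by
    intro c hc
    rw [abs_le] at hc ⊢
    push_cast
    have h1 : ((r : ℤ) / l) * l ≤ r := Int.ediv_mul_le _ hl'.ne'
    have h2 : (r : ℤ) < ((r : ℤ) / l + 1) * l := by
      have := Int.lt_ediv_add_one_mul_self (r : ℤ) hl'
      exact this
    constructor
    · have h3 : -((r : ℤ) / l + 1) * l ≤ c := by nlinarith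
      exact (Int.le_ediv_iff_mul_le hl').2 h3
    · have h3 : c < ((r : ℤ) / l + 1) * l := by linarith
      exact (Int.ediv_lt_of_lt_mul hl' h3).le
  exact ⟨key a.1 ha.1, key a.2 ha.2⟩

theorem rd_near {l : ℕ} (hl : 0 < l) (a : ℤ × ℤ) :
    (0 ≤ a.1 - (rd l a).1 ∧ a.1 - (rd l a).1 < l) ∧ (0 ≤ a.2 - (rd l a).2 ∧ a.2 - (rd l a).2 < l) := by
  have hl' : (0 : ℤ) < l := by exact_mod_cast hl
  have key : ∀ c : ℤ, 0 ≤ c - (l : ℤ) * (c / l) ∧ c - (l : ℤ) * (c / l) < l := by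
    intro c
    have h1 := Int.emod_nonneg c hl'.ne'
    have h2 := Int.emod_lt_of_pos c hl'
    have h3 := Int.mul_ediv_add_emod c l
    omega
  exact ⟨key a.1, key a.2⟩

end

end Pool.Agent.Run7.h981.OH
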