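import Pool.Agent.Run7.h981.OH.Geo

/-!
# A fast path contains many separated bad places
-/

set_option autoImplicit false
open Set
open scoped Pointwise Topology

namespace Pool.Agent.Run7.h981.OH

open Pool.Agent.N662.FP
open Pool.Agent.N390.FL.TI (sg sg_inj D_shift PS_shift)

noncomputable section

theorem sh_zero (x : En) : sh 0 x = x := by
  funext e
  show x (sg 0 e) = x e
  congr 1
  unfold sg
  induction e using Sym2.ind with
  | _ a b => simp

theorem em_sub (a b : ℤ × ℤ) : em (a - b) = em a - em b := by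
  unfold Pool.Agent.N662.FP.em
  simp [Prod.ext_iff]

/-- passage times in boxes, in terms of the distance -/
theorem D_box' {x : En} (hx : ∀ e, 0 ≤ x e) {r : ℕ} {w0 : ℝ}
    (hw : ∀ u ∈ box r, ∀ w ∈ box r, Nb u w → x s(u, w) ≤ w0) {a b : ℤ × ℤ} (ha : a ∈ box r)
    (hb : b ∈ box r) : D x a b ≤ w0 * ((|b.1 - a.1| + |b.2 - a.2| : ℤ) : ℝ) := by
  have e : |b.1 - a.1| + |b.2 - a.2| = ((|b.1 - a.1| + |b.2 - a.2|).toNat : ℤ) :=
    (Int.toNat_of_nonneg (by positivity)).symm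
  have h := D_box hx hw _ a b ha hb e
  refine h.trans (le_of_eq ?_)
  conv_rhs => rw [e]
  push_cast
  rfl

/-- a bad piece gives a bad point of the net -/
theorem bad_point (q : Seminorm ℝ (ℝ × ℝ)) {C0 : ℝ}
    (hC' : ∀ w : ℤ × ℤ, q (em w) ≤ C0 * ((|w.1| + |w.2| : ℤ) : ℝ)) (hC0 : 0 ≤ C0)
    {x : En} (hx : ∀ e, 0 ≤ x e) {ρ M l : ℕ} (hl : 0 < l) {w0 : ℝ} (hw0 : 0 < w0)
    (hW : ∀ u ∈ box (ρ + l), ∀ w ∈ box (ρ + l), Nb u w → x s(u, w) ≤ w0)
    (hF : ∀ z ∈ box (ρ + l), ∀ n, M < n → ¬ Fast (sh z x) n) {s s1 r1 : ℝ}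
    (hs1 : s + 2 * l * w0 < s1) (hM : 25 * s1 ≤ M + 1) {a b : ℤ × ℤ} (ha : a ∈ box ρ)
    (hab : D x a b ≤ s) (hbad : s + ((s1 - s) + r1 + 2 * l * C0) < q (em b - em a)) :
    sh (rd l a) x ∈ U q M s1 r1 := by
  set z := rd l a with hz
  obtain ⟨⟨n1, n2⟩, n3, n4⟩ := rd_near hl a
  rw [← hz] at n1 n2 n3 n4
  have hzb : z ∈ box (ρ + l) := by
    rw [mem_box] at ha ⊢
    simp only [abs_le] at ha ⊢
    push_cast
    omega
  have hab' : a ∈ box (ρ + l) := by
    rw [mem_box] at ha ⊢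
    push_cast
    omega
  have h1 : (|a.1 - z.1| + |a.2 - z.2| : ℤ) ≤ 2 * l := by
    rw [abs_of_nonneg n1, abs_of_nonneg n3]; omega
  have h1' : ((|a.1 - z.1| + |a.2 - z.2| : ℤ) : ℝ) ≤ 2 * l := by exact_mod_cast h1
  have h2 : D x z a ≤ w0 * (2 * l) :=
    (D_box' hx hW hzb hab').trans (mul_le_mul_of_nonneg_left h1' hw0.le)
  have h3 : D x z b < s1 := by
    have := cTRI x hx z a b
    linarith
  have hxs : ∀ e, 0 ≤ sh z x e := fun e => hx _
  have h4 : D (sh z x) 0 (b - z) < s1 := by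
    have := D_shift x z (b - z)
    rw [add_sub_cancel] at this
    rw [this] at h3
    exact h3
  obtain ⟨s', hs', hs''⟩ := exists_lt_of_csInf_lt (cGE (sh z x) hxs 0 (b - z)).1 h4
  obtain ⟨n, p, p0, pn, hp, hinj, hsum⟩ := cSAW (sh z x) hxs 0 (b - z) s' hs'
  have hn : n ≤ M := by
    by_contra hc
    push Not at hc
    refine hF z hzb n hc ⟨p, p0, hp, hinj, ?_⟩
    have : ((M : ℝ) + 1) ≤ n := by exact_mod_cast hc
    linarith
  refine ⟨b - z, ?_, ?_, ?_⟩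
  · have := path_box p0 hp n le_rfl
    rw [pn] at this
    rw [mem_box]
    have hn' : (n : ℤ) ≤ M := by exact_mod_cast hn
    exact ⟨this.1.trans hn', this.2.trans hn'⟩
  · have h5 := hC' (a - z)
    simp only [Prod.fst_sub, Prod.snd_sub] at h5
    have h6 : C0 * ((|a.1 - z.1| + |a.2 - z.2| : ℤ) : ℝ) ≤ C0 * (2 * l) :=
      mul_le_mul_of_nonneg_left h1' hC0
    have h7 : q (em b - em a) ≤ q (em (b - z)) + q (em (a - z)) := by
      have e : em b - em a = em (b - z) + -em (a - z) := by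
        rw [em_sub, em_sub]; abel
      rw [e]
      refine (map_add_le_add q _ _).trans (le_of_eq ?_)
      rw [map_neg_eq_map]
    linarith
  · intro hwin
    have := hwin n hn p p0 pn hp
    linarith

/-- **the deterministic part** -/
theorem geo (q : Seminorm ℝ (ℝ × ℝ)) {C0 : ℝ}
    (hC' : ∀ w : ℤ × ℤ, q (em w) ≤ C0 * ((|w.1| + |w.2| : ℤ) : ℝ)) (hC0 : 0 ≤ C0)
    {x : En} (hx : ∀ e, 0 ≤ x e) {ρ M l : ℕ} (hl : 0 < l) {w0 : ℝ} (hw0 : 0 < w0)
    (hW : ∀ u ∈ box (ρ + l), ∀ w ∈ box (ρ + l), Nb u w → x s(u, w) ≤ w0)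
    (hF : ∀ z ∈ box (ρ + l), ∀ n, M < n → ¬ Fast (sh z x) n) {s R : ℝ} (hs : 0 ≤ s) (hR : 0 ≤ R)
    (hO : ∀ a ∈ box ρ, ∀ b, D x a b ≤ s → q (em b - em a) ≤ s + R) {t r s1 r1 : ℝ}
    {N K1 k : ℕ} (hN : t + 1 ≤ N * s) (hρ : 25 * (t + 1) ≤ ρ + 1) (hMρ : M ≤ ρ)
    (hs1 : s + 2 * l * w0 < s1) (hM : 25 * s1 ≤ M + 1) (hr1 : 0 ≤ r1)
    (hbig : N * (s + ((s1 - s) + r1 + 2 * l * C0) + C0) + K1 * k * R ≤ t + r)
    (hK : 2 * w0 * (2 * M + 2 * l) + 1 < K1 * s) (hK1 : 0 < K1) {v : ℤ × ℤ}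
    (hv : D x 0 v ≤ t) (hqv : t + r < q (em v)) :
    ∃ Z ⊆ Net ρ l, Z.card = k ∧ (∀ z ∈ Z, ∀ w ∈ Z, z ≠ w → Disjoint (EM M z) (EM M w)) ∧
      ∀ z ∈ Z, sh z x ∈ U q M s1 r1 := by
  classical
  obtain ⟨s', hs', hs''⟩ := exists_lt_of_csInf_lt (cGE x hx 0 v).1
    (show D x 0 v < D x 0 v + 1 by linarith)
  obtain ⟨n, p, p0, pn, hp, hinj, hsum⟩ := cSAW x hx 0 v s' hs'
  have hnρ : n ≤ ρ := by
    by_contra hc
    push Not at hc
    have h0 : (0 : ℤ × ℤ) ∈ box (ρ + l) := by rw [mem_box]; simp; positivity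
    refine hF 0 h0 n (by omega) ?_
    rw [sh_zero]
    refine ⟨p, p0, hp, hinj, ?_⟩
    have : ((ρ : ℝ) + 1) ≤ n := by exact_mod_cast hc
    linarith
  have hbox : ∀ i ≤ n, p i ∈ box ρ := by
    intro i hi
    have h1 := path_box p0 hp i hi
    have h2 : (i : ℤ) ≤ ρ := by omega
    rw [mem_box]
    exact ⟨h1.1.trans h2, h1.2.trans h2⟩
  have hbox' : ∀ i ≤ n, p i ∈ box (ρ + l) := by
    intro i hi
    have := hbox i hi
    rw [mem_box] at this ⊢
    push_cast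
    omega
  set P : ℕ → ℝ := fun i => ∑ j ∈ Finset.range i, x s(p j, p (j + 1)) with hPdef
  have hP : Monotone P := by
    refine monotone_nat_of_le_succ fun i => ?_
    simp only [hPdef, Finset.sum_range_succ]
    linarith [hx s(p i, p (i + 1))]
  have hPn : P n < t + 1 := by
    have : P n ≤ s' := hsum
    linarith
  have hPn' : P n < D x 0 v + 1 := lt_of_le_of_lt hsum hs''
  have hpart : ∀ i k, i ≤ k → k ≤ n → D x (p i) (p k) ≤ P k - P i := fun i k hik hk =>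
    D_le hx (part hp hik hk)
  have hC : ∀ u w : ℤ × ℤ, Nb u w → q (em w - em u) ≤ C0 := by
    intro u w h
    have h1 := hC' (w - u)
    rw [em_sub] at h1
    refine h1.trans (le_of_eq ?_)
    have : |(w - u).1| + |(w - u).2| = 1 := h
    rw [this]
    simp
  obtain ⟨F, I, K, hFc, hF1, hF2⟩ := many_bad q C0 hC0 hC hp P hP (by simp [hPdef]) hs (N := N)
    (by linarith) (r' := (s1 - s) + r1 + 2 * l * C0) (R := R)
    (by have : 0 ≤ 2 * (l : ℝ) * w0 := by positivity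
        have : 0 ≤ 2 * (l : ℝ) * C0 := by positivity
        linarith) hR
    (fun i k hik hk h => hO _ (hbox i (by omega)) _ ((hpart i k hik hk).trans h)) K1 k hK1
    (by
      have e0 : em (0 : ℤ × ℤ) = 0 := by simp [Pool.Agent.N662.FP.em]
      rw [pn, p0, e0, sub_zero]
      linarith)
  -- separation
  have hsep : ∀ j ∈ F, ∀ l' ∈ F, j < l' →
      2 * (M : ℤ) < |(rd l (p (I j))).1 - (rd l (p (I l'))).1| ∨
      2 * (M : ℤ) < |(rd l (p (I j))).2 - (rd l (p (I l'))).2| := by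
    intro j hj l' hl' hjl
    obtain ⟨h1, h2⟩ := hF2 j hj l' hl' hjl
    obtain ⟨h3, h4, _, _⟩ := hF1 l' hl'
    have hb1 : p (I j) ∈ box (ρ + l) := hbox' _ (by omega)
    have hb2 : p (I l') ∈ box (ρ + l) := hbox' _ (by omega)
    have h5 := D_box' hx hW hb1 hb2
    have h6 : P (I l') - P (I j) ≤ D x (p (I j)) (p (I l')) + 1 := by
      have t1 := cTRI x hx 0 (p (I j)) v
      have t2 := cTRI x hx (p (I j)) (p (I l')) v
      have t3 := hpart 0 (I j) (Nat.zero_le _) (by omega)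
      have t4 := hpart (I l') n (by omega) le_rfl
      rw [p0] at t3
      rw [pn] at t4
      have t5 : P 0 = 0 := by simp [hPdef]
      linarith
    have h7 : 2 * (2 * (M : ℝ) + 2 * l) <
        ((|(p (I l')).1 - (p (I j)).1| + |(p (I l')).2 - (p (I j)).2| : ℤ) : ℝ) := by
      by_contra hc
      push Not at hc
      have := mul_le_mul_of_nonneg_left hc hw0.le
      nlinarith
    have h8 : 2 * (2 * (M : ℤ) + 2 * l) <
        |(p (I l')).1 - (p (I j)).1| + |(p (I l')).2 - (p (I j)).2| := by exact_mod_cast h7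
    obtain ⟨⟨a1, a2⟩, a3, a4⟩ := rd_near hl (p (I j))
    obtain ⟨⟨b1, b2⟩, b3, b4⟩ := rd_near hl (p (I l'))
    by_cases hc : 2 * (M : ℤ) + 2 * l < |(p (I l')).1 - (p (I j)).1|
    · left
      rw [lt_abs] at hc ⊢
      omega
    · right
      have h9 : 2 * (M : ℤ) + 2 * l < |(p (I l')).2 - (p (I j)).2| := by omega
      rw [lt_abs] at h9 ⊢
      omega
  have hinjF : Set.InjOn (fun j => rd l (p (I j))) F := by
    intro j hj l' hl' h
    have h' : rd l (p (I j)) = rd l (p (I l')) := h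
    rcases lt_trichotomy j l' with h1 | h1 | h1
    · have := hsep j hj l' hl' h1
      rw [h'] at this
      simp at this
      omega
    · exact h1
    · have := hsep l' hl' j hj h1
      rw [h'] at this
      simp at this
      omega
  obtain ⟨Z, hZ, hZc⟩ := Finset.exists_subset_card_eq (s := F.image fun j => rd l (p (I j)))
    (n := k) (by rw [Finset.card_image_of_injOn hinjF]; omega)
  refine ⟨Z, ?_, hZc, ?_, ?_⟩
  · intro z hz
    obtain ⟨j, hj, rfl⟩ := Finset.mem_image.1 (hZ hz)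
    refine rd_mem hl (hbox _ ?_)
    have := hF1 j hj
    omega
  · intro z hz w hw hzw
    obtain ⟨j, hj, rfl⟩ := Finset.mem_image.1 (hZ hz)
    obtain ⟨l', hl', rfl⟩ := Finset.mem_image.1 (hZ hw)
    rcases lt_trichotomy j l' with h1 | h1 | h1
    · exact EM_disj (hsep j hj l' hl' h1)
    · exact absurd (by rw [h1]) hzw
    · exact (EM_disj (hsep l' hl' j hj h1)).symm
  · intro z hz
    obtain ⟨j, hj, rfl⟩ := Finset.mem_image.1 (hZ hz)
    obtain ⟨h1, h2, h3, h4⟩ := hF1 j hj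
    exact bad_point q hC' hC0 hx hl hw0 hW hF hs1 hM (hbox _ (by omega))
      ((hpart _ _ h1 h2).trans h3) h4

end

end Pool.Agent.Run7.h981.OH
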