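import Pool.Agent.Run7.h981.OH.Asy

/-!
# The choice of the parameters
-/

set_option autoImplicit false
open MeasureTheory ProbabilityTheory Filter Set
open scoped ENNReal Pointwise Topology

namespace Pool.Agent.Run7.h981.OH

open Pool.Agent.N662.FP

noncomputable section

/-- the parameters at time `t` -/
structure Par (β ε γ κ' κn κ A C0 t : ℝ) (N l M ρ K1 k : ℕ) (s s1 : ℝ) : Prop where
  hl : 0 < l
  hw : 0 < t ^ ε
  hs : 0 ≤ s
  hs1' : 0 < s1
  hN : t + 1 ≤ N * s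
  hρ : 25 * (t + 1) ≤ ρ + 1
  hMρ : M ≤ ρ
  hs1 : s + 2 * l * t ^ ε < s1
  hM : 25 * s1 ≤ M + 1
  hbig : N * (s + ((s1 - s) + s1 ^ (1 - κ') + 2 * l * C0) + C0) + K1 * k * (A * s ^ (1 - κn)) ≤
    t + t ^ (1 - κ)
  hK : 2 * t ^ ε * (2 * M + 2 * l) + 1 < K1 * s
  hK1 : 0 < K1
  lo : t ^ β / 2 ≤ s
  lo1 : t ^ β / 2 ≤ s1
  Mlo : 2 * t ^ β ≤ M
  klo : t ^ ε - 1 ≤ k
  llo : t ^ γ ≤ l
  hl2 : (l : ℝ) ≤ 2 * t ^ γ
  ρhi : (ρ : ℝ) ≤ 51 * t

theorem par {β ε γ κ' κn κ A C0 : ℝ} (hβ : 0 < β) (hβ1 : β < 1) (hε : 0 < ε) (hγ : 0 < γ)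
    (hκ' : 0 < κ') (hκ'1 : κ' < 1) (hκn : 0 ≤ κn) (hκn1 : κn < 1) (hA : 0 ≤ A) (hC0 : 0 ≤ C0)
    (hγε : γ + ε ≤ β * (1 - κ')) (h3 : κ < β * κ') (h4 : 2 * ε + β * (1 - κn) < 1 - κ) :
    ∀ᶠ t : ℝ in atTop, ∃ (N l M ρ K1 k : ℕ) (s s1 : ℝ),
      Par β ε γ κ' κn κ A C0 t N l M ρ K1 k s s1 := by
  have hκ1 : 0 < 1 - κ := by nlinarith
  have hγβ : γ + ε < β := by nlinarith
  filter_upwards [eventually_ge_atTop (1 : ℝ), ev_pow hγβ 4, ev_pow hβ1 100,
    ev_pow (a := 0) hβ 2, ev_pow (a := 1 - β + β * (1 - κ')) (b := 1 - κ) (by linarith)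
      (3 * (18 + 10 * C0)), ev_pow (a := 2 * ε + β * (1 - κn)) h4 (3 * (1622 * A)),
    ev_pow (a := 0) hκ1 3] with t ht E1 E2 E6 E3 E4 E5
  have h0 : (0 : ℝ) < t := lt_of_lt_of_le one_pos ht
  rw [Real.rpow_zero] at E6 E5
  rw [Real.rpow_one] at E2
  -- N
  set u : ℝ := t ^ (1 - β) with hu
  have hu1 : 1 ≤ u := Real.one_le_rpow ht (by linarith)
  set N : ℕ := ⌈u⌉₊ with hN
  have N1 : u ≤ N := Nat.le_ceil u
  have N2 : (N : ℝ) ≤ 2 * u := by
    have := Nat.ceil_lt_add_one (show 0 ≤ u by linarith only [hu1])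
    linarith only [this, hu1]
  have N0 : (0 : ℝ) < N := by linarith only [N1, hu1]
  set b : ℝ := t ^ β with hb
  have hub : u * b = t := by
    rw [hu, hb, ← Real.rpow_add h0]; simp
  have hb0 : 0 < b := by positivity
  -- s
  set s : ℝ := (t + 1) / N with hs
  have Ns : N * s = t + 1 := by rw [hs]; field_simp
  have s1 : b / 2 ≤ s := by
    rw [hs, le_div_iff₀ N0]
    calc b / 2 * N ≤ b / 2 * (2 * u) := by gcongr
      _ = t := by rw [← hub]; ring
      _ ≤ _ := by linarith only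
  have s2 : s ≤ 2 * b := by
    rw [hs, div_le_iff₀ N0]
    calc t + 1 ≤ 2 * t := by linarith only [ht]
      _ = 2 * b * u := by rw [← hub]; ring
      _ ≤ 2 * b * N := by gcongr
  -- w
  set w : ℝ := t ^ ε with hw
  have w1 : 1 ≤ w := Real.one_le_rpow ht hε.le
  -- l
  set g : ℝ := t ^ γ with hg
  have g1 : 1 ≤ g := Real.one_le_rpow ht hγ.le
  set l : ℕ := ⌈g⌉₊ with hl
  have l1 : g ≤ l := Nat.le_ceil g
  have l2 : (l : ℝ) ≤ 2 * g := by
    have := Nat.ceil_lt_add_one (show 0 ≤ g by linarith only [g1])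
    linarith only [this, g1]
  have l0 : 0 < l := by
    have : (0 : ℝ) < l := by linarith only [l1, g1]
    exact_mod_cast this
  have hgw : t ^ (γ + ε) = g * w := Real.rpow_add h0 _ _
  rw [hgw] at E1
  have lw : 2 * l * w ≤ 4 * (g * w) := by
    calc 2 * (l : ℝ) * w ≤ 2 * (2 * g) * w := by gcongr
      _ = _ := by ring
  -- s1
  set S : ℝ := s + 2 * l * w + 1 with hS
  have S0 : 0 < S := by
    have : 0 ≤ 2 * (l : ℝ) * w := by positivity
    linarith only [this, hS, s1, hb0]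
  have S1 : s + 2 * l * w < S := by linarith only [hS]
  have S2 : S ≤ 4 * b := by linarith only [hS, lw, E1, s2, E6]
  have S3 : s + 1 ≤ S := by
    have : 0 ≤ 2 * (l : ℝ) * w := by positivity
    linarith only [this, hS]
  -- M
  set M : ℕ := ⌊25 * S⌋₊ with hM
  have M1 : 25 * S ≤ M + 1 := (Nat.lt_floor_add_one (25 * S)).le
  have M2 : (M : ℝ) ≤ 25 * S := Nat.floor_le (by linarith only [S0])
  -- ρ
  set ρ : ℕ := ⌈25 * (t + 1)⌉₊ with hρ
  have ρ1 : 25 * (t + 1) ≤ ρ := Nat.le_ceil _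
  have ρ3 : (ρ : ℝ) ≤ 51 * t := by
    have := Nat.ceil_lt_add_one (show 0 ≤ 25 * (t + 1) by linarith only [ht])
    linarith only [this, ht]
  have hMρ : M ≤ ρ := by
    have : (M : ℝ) ≤ ρ := by linarith only [M2, S2, E2, ρ1]
    exact_mod_cast this
  -- K1, k
  set K1 : ℕ := ⌈808 * w + 2⌉₊ with hK1
  have K1a : 808 * w + 2 ≤ K1 := Nat.le_ceil _
  have K1b : (K1 : ℝ) ≤ 811 * w := by
    have := Nat.ceil_lt_add_one (show 0 ≤ 808 * w + 2 by linarith only [w1])
    linarith only [this, w1]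
  set k : ℕ := ⌊w⌋₊ with hk
  have k1 : (k : ℝ) ≤ w := Nat.floor_le (by linarith only [w1])
  have k2 : w - 1 ≤ k := by
    have := Nat.lt_floor_add_one w
    linarith only [this]
  -- the powers
  set d : ℝ := t ^ (β * (1 - κ')) with hd
  have hd1 : 1 ≤ d := Real.one_le_rpow ht (mul_nonneg hβ.le (by linarith only [hκ'1]))
  have hgwd : g * w ≤ d := by
    rw [← hgw]; exact Real.rpow_le_rpow_of_exponent_le ht hγε
  have hgd : g ≤ d := by
    calc g = g * 1 := by ring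
      _ ≤ g * w := by gcongr
      _ ≤ d := hgwd
  have hr1 : S ^ (1 - κ') ≤ 4 * d := by
    calc S ^ (1 - κ') ≤ (4 * b) ^ (1 - κ') := Real.rpow_le_rpow S0.le S2 (by linarith only [hκ'1])
      _ = 4 ^ (1 - κ') * b ^ (1 - κ') := Real.mul_rpow (by norm_num) hb0.le
      _ = 4 ^ (1 - κ') * d := by rw [hb, ← Real.rpow_mul h0.le]
      _ ≤ 4 * d := by
          gcongr
          calc (4 : ℝ) ^ (1 - κ') ≤ 4 ^ (1 : ℝ) :=
                Real.rpow_le_rpow_of_exponent_le (by norm_num) (by linarith only [hκ'])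
            _ = 4 := by simp
  set e : ℝ := t ^ (β * (1 - κn)) with he
  have hR : s ^ (1 - κn) ≤ 2 * e := by
    calc s ^ (1 - κn) ≤ (2 * b) ^ (1 - κn) :=
          Real.rpow_le_rpow (by linarith only [s1, hb0]) s2 (by linarith only [hκn1])
      _ = 2 ^ (1 - κn) * b ^ (1 - κn) := Real.mul_rpow (by norm_num) hb0.le
      _ = 2 ^ (1 - κn) * e := by rw [hb, ← Real.rpow_mul h0.le]
      _ ≤ 2 * e := by
          gcongr
          calc (2 : ℝ) ^ (1 - κn) ≤ 2 ^ (1 : ℝ) :=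
                Real.rpow_le_rpow_of_exponent_le (by norm_num) (by linarith only [hκn])
            _ = 2 := by simp
  have hs0 : 0 < s := by linarith only [s1, hb0]
  refine ⟨N, l, M, ρ, K1, k, s, S, l0, by positivity, hs0.le, S0, Ns.ge, by linarith only [ρ1],
    hMρ, S1, M1, ?_, ?_, ?_, s1, by linarith only [s1, S3], ?_, k2, l1, l2, ρ3⟩
  · -- hbig
    have a1 : (S - s) + S ^ (1 - κ') + 2 * l * C0 + C0 ≤ (9 + 5 * C0) * d := by
      have b1 : S - s ≤ 5 * d := by linarith only [hS, lw, hgwd, hd1]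
      have b2 : 2 * (l : ℝ) * C0 ≤ 4 * d * C0 := by
        calc 2 * (l : ℝ) * C0 ≤ 2 * (2 * g) * C0 := by gcongr
          _ ≤ 2 * (2 * d) * C0 := by gcongr
          _ = _ := by ring
      have b3 : C0 ≤ d * C0 := le_mul_of_one_le_left hC0 hd1
      linarith only [b1, b2, b3, hr1]
    have a2 : N * ((S - s) + S ^ (1 - κ') + 2 * l * C0 + C0) ≤
        (18 + 10 * C0) * t ^ (1 - β + β * (1 - κ')) := by
      calc N * ((S - s) + S ^ (1 - κ') + 2 * l * C0 + C0) ≤ (2 * u) * ((9 + 5 * C0) * d) := by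
            refine mul_le_mul N2 a1 ?_ (by positivity)
            have : 0 ≤ S - s := by linarith only [S3]
            positivity
        _ = (18 + 10 * C0) * (u * d) := by ring
        _ = _ := by rw [hu, hd, ← Real.rpow_add h0]
    have a3 : K1 * k * (A * s ^ (1 - κn)) ≤ 1622 * A * t ^ (2 * ε + β * (1 - κn)) := by
      calc K1 * k * (A * s ^ (1 - κn)) ≤ (811 * w) * w * (A * (2 * e)) := by gcongr
        _ = 1622 * A * (w * w * e) := by ring
        _ = _ := by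
            rw [hw, he, ← Real.rpow_add h0, ← Real.rpow_add h0]
            congr 2; ring
    have a4 : N * (s + ((S - s) + S ^ (1 - κ') + 2 * l * C0) + C0) =
        (t + 1) + N * ((S - s) + S ^ (1 - κ') + 2 * l * C0 + C0) := by
      rw [← Ns]; ring
    rw [a4]
    linarith only [a2, a3, E3, E4, E5]
  · -- hK
    have a1 : (2 * (M : ℝ) + 2 * l) ≤ 402 * s := by
      have b1 : (l : ℝ) ≤ b / 2 := by
        calc (l : ℝ) ≤ 2 * g := l2
          _ = 2 * (g * 1) := by ring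
          _ ≤ 2 * (g * w) := by gcongr
          _ ≤ b / 2 := by linarith only [E1]
      linarith only [b1, M2, S2, s1]
    calc 2 * w * (2 * M + 2 * l) + 1 ≤ 2 * w * (402 * s) + 1 := by gcongr
      _ < (808 * w + 2) * s := by
          have : 0 ≤ 4 * w * s := by positivity
          linarith only [this, s1, E6]
      _ ≤ K1 * s := by gcongr
  · have : (0 : ℝ) < K1 := by linarith only [K1a, w1]
    exact_mod_cast this
  · linarith only [M1, S3, s1, hb0]

end

end Pool.Agent.Run7.h981.OH
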