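import Pool.Agent.Run7.h981.OH.Num

/-!
# One step of the bootstrap
-/

set_option autoImplicit false
open MeasureTheory ProbabilityTheory Filter Set
open scoped ENNReal Pointwise Topology

namespace Pool.Agent.Run7.h981.OH

open Pool.Agent.N662.FP

noncomputable section

theorem ofR_le {x : ℝ≥0∞} {y z : ℝ} (h : x ≤ ENNReal.ofReal y) (h' : y ≤ z) :
    x ≤ ENNReal.ofReal z := h.trans (ENNReal.ofReal_le_ofReal h')

theorem nat_ofR {n : ℕ} {y : ℝ} (h : (n : ℝ) ≤ y) : (n : ℝ≥0∞) ≤ ENNReal.ofReal y := by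
  rw [← ENNReal.ofReal_natCast]
  exact ENNReal.ofReal_le_ofReal h

theorem mul_ofR {x y : ℝ≥0∞} {a b : ℝ} (ha : 0 ≤ a) (hx : x ≤ ENNReal.ofReal a)
    (hy : y ≤ ENNReal.ofReal b) : x * y ≤ ENNReal.ofReal (a * b) := by
  rw [ENNReal.ofReal_mul ha]
  gcongr

section
variable {Ω : Type} [MeasureSpace Ω] [IsProbabilityMeasure (volume : Measure Ω)]
variable {X : Sym2 (ℤ × ℤ) → Ω → ℝ}

/-- stretched exponential lower tail at the exponent `κ` -/
def SE (X : Sym2 (ℤ × ℤ) → Ω → ℝ) (q : Seminorm ℝ (ℝ × ℝ)) (κ : ℝ) : Prop :=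
  ∃ A c : ℝ, 0 ≤ A ∧ 0 < c ∧ ∀ᶠ s : ℝ in atTop,
    pO X q s (A * s ^ (1 - κ)) ≤ ENNReal.ofReal (Real.exp (-(s ^ c)))

theorem step (hX : Iid X) (q : Seminorm ℝ (ℝ × ℝ)) {C0 : ℝ}
    (hC' : ∀ w : ℤ × ℤ, q (em w) ≤ C0 * ((|w.1| + |w.2| : ℤ) : ℝ)) (hC0 : 0 ≤ C0)
    {β ε γ κ' κn κ a B : ℝ} (hβ : 0 < β) (hβ1 : β < 1) (hε : 0 < ε) (hγ : 0 < γ)
    (hκ' : 0 < κ') (hκ'1 : κ' < 1) (hκn : 0 ≤ κn) (hκn1 : κn < 1) (ha : 0 ≤ a)
    (hγε : γ + ε ≤ β * (1 - κ')) (h3 : κ < β * κ') (h4 : 2 * ε + β * (1 - κn) < 1 - κ)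
    (hδ : 2 * (1 - γ) < β * a)
    (hH : ∀ᶠ s : ℝ in atTop, pO X q s (s ^ (1 - κ')) ≤ ENNReal.ofReal (B * s ^ (-a)))
    (hS : SE X q κn) :
    ∃ c : ℝ, 0 < c ∧ ∀ᶠ t : ℝ in atTop,
      pO X q t (t ^ (1 - κ)) ≤ ENNReal.ofReal (Real.exp (-(t ^ c))) := by
  obtain ⟨A, c1, hA, hc1, hS⟩ := hS
  obtain ⟨s₁, hS⟩ := eventually_atTop.1 hS
  obtain ⟨s₂, hH⟩ := eventually_atTop.1 hH
  have hγ1 : γ < 1 := by nlinarith
  set c : ℝ := min ε (min β (β * c1)) / 2 with hc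
  have hm : 0 < min ε (min β (β * c1)) := lt_min hε (lt_min hβ (mul_pos hβ hc1))
  have c0 : 0 < c := by linarith
  have cε : c < ε := by
    have := min_le_left ε (min β (β * c1))
    linarith
  have cβ : c < β := by
    have := (min_le_right ε (min β (β * c1))).trans (min_le_left _ _)
    linarith
  have cc : c < β * c1 := by
    have := (min_le_right ε (min β (β * c1))).trans (min_le_right _ _)
    linarith
  refine ⟨c, c0, ?_⟩
  have hlim : Tendsto (fun t : ℝ => t ^ β / 2) atTop atTop :=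
    (tendsto_rpow_atTop hβ).atTop_div_const (by norm_num)
  filter_upwards [eventually_ge_atTop (1 : ℝ), hlim.eventually_ge_atTop s₁,
    hlim.eventually_ge_atTop s₂, par hβ hβ1 hε hγ hκ' hκ'1 hκn hκn1 hA hC0 hγε h3 h4,
    ev_exp c0 cε one_pos (107 ^ 4) ((4 : ℕ) : ℝ), ev_exp c0 cβ one_pos (107 ^ 2) ((2 : ℕ) : ℝ),
    ev_exp c0 cc (show 0 < ((1 / 2 : ℝ)) ^ c1 by positivity) (107 ^ 2) ((2 : ℕ) : ℝ),
    ev_exp c0 cε one_pos (Real.exp 1) 0,
    ev_pow (a := 2 * (1 - γ) - β * a) (b := 0) (by linarith)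
      (Real.exp 1 * (105 ^ 2 * (|B| * 2 ^ a)))] with t ht g1 g2 hpar F1 F2 F3 F4 F5
  obtain ⟨N, l, M, ρ, K1, k, s, s1, P⟩ := hpar
  have h0 : (0 : ℝ) < t := lt_of_lt_of_le one_pos ht
  have hb0 : 0 < t ^ β := by positivity
  have hs0 : 0 < s := by
    have := P.lo
    linarith only [this, hb0]
  have hfin := fin_scale hX q hC' hC0 (R := A * s ^ (1 - κn)) (r := t ^ (1 - κ))
    (r1 := s1 ^ (1 - κ')) P.hl P.hw P.hs (mul_nonneg hA (Real.rpow_nonneg hs0.le _)) P.hN P.hρ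
    P.hMρ P.hs1 P.hM (Real.rpow_nonneg P.hs1'.le _) P.hbig P.hK P.hK1
  -- the cardinalities
  have hl53 : (ρ : ℝ) + l ≤ 53 * t := by
    have e1 := P.hl2
    have e2 := P.ρhi
    have e3 : t ^ γ ≤ t ^ (1 : ℝ) := Real.rpow_le_rpow_of_exponent_le ht hγ1.le
    rw [Real.rpow_one] at e3
    linarith only [e1, e2, e3]
  have hb1 : ((box (ρ + l)).card : ℝ) ≤ (107 * t) ^ 2 := by
    rw [box_card]
    push_cast
    gcongr
    linarith only [hl53, ht]
  have hb2 : ((box ρ).card : ℝ) ≤ (107 * t) ^ 2 := by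
    rw [box_card]
    push_cast
    gcongr
    have e2 := P.ρhi
    linarith only [e2, ht]
  have hn : ((Net ρ l).card : ℝ) ≤ (105 * t ^ (1 - γ)) ^ 2 := by
    have e1 : ((Net ρ l).card : ℝ) ≤ ((2 * (ρ / l + 1) + 1) ^ 2 : ℕ) := by
      exact_mod_cast Net_card ρ l
    refine e1.trans ?_
    push_cast
    have hl0 : (0 : ℝ) < l := by exact_mod_cast P.hl
    have e2 : ((ρ / l : ℕ) : ℝ) ≤ 51 * t ^ (1 - γ) := by
      refine Nat.cast_div_le.trans ?_
      rw [div_le_iff₀ hl0]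
      calc (ρ : ℝ) ≤ 51 * t := P.ρhi
        _ = 51 * t ^ (1 - γ) * t ^ γ := by
            rw [mul_assoc, ← Real.rpow_add h0]; simp
        _ ≤ 51 * t ^ (1 - γ) * l := by
            have := P.llo
            gcongr
    have e3 : 1 ≤ t ^ (1 - γ) := Real.one_le_rpow ht (by linarith only [hγ1])
    gcongr
    linarith only [e2, e3]
  -- the four terms
  have T1 : ((box (ρ + l)).card : ℝ≥0∞) ^ 2 * ENNReal.ofReal (Real.exp (-(t ^ ε))) ≤
      ENNReal.ofReal (Real.exp (-(t ^ c)) / 4) := by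
    have e1 : ((box (ρ + l)).card : ℝ≥0∞) ^ 2 ≤ ENNReal.ofReal (((107 * t) ^ 2) ^ 2) := by
      rw [ENNReal.ofReal_pow (by positivity)]
      gcongr
      exact nat_ofR hb1
    refine ofR_le (mul_ofR (by positivity) e1 le_rfl) (le_trans (le_of_eq ?_) F1)
    rw [Real.rpow_natCast]
    ring
  have T2 : ((box (ρ + l)).card : ℝ≥0∞) * (1 / 2 : ℝ≥0∞) ^ M ≤
      ENNReal.ofReal (Real.exp (-(t ^ c)) / 4) := by
    refine ofR_le (mul_ofR (by positivity) (nat_ofR hb1) (half_pow M (t ^ β) P.Mlo))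
      (le_trans (le_of_eq ?_) F2)
    rw [Real.rpow_natCast]
    ring
  have T3 : ((box ρ).card : ℝ≥0∞) * pO X q s (A * s ^ (1 - κn)) ≤
      ENNReal.ofReal (Real.exp (-(t ^ c)) / 4) := by
    refine ofR_le (mul_ofR (by positivity) (nat_ofR hb2) (hS s (g1.trans P.lo)))
      (le_trans ?_ F3)
    rw [Real.rpow_natCast]
    have e1 : (1 / 2 : ℝ) ^ c1 * t ^ (β * c1) ≤ s ^ c1 := by
      calc (1 / 2 : ℝ) ^ c1 * t ^ (β * c1) = (1 / 2) ^ c1 * (t ^ β) ^ c1 := by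
            rw [← Real.rpow_mul h0.le]
        _ = (1 / 2 * t ^ β) ^ c1 := (Real.mul_rpow (by norm_num) hb0.le).symm
        _ ≤ s ^ c1 := by
            refine Real.rpow_le_rpow (by positivity) ?_ hc1.le
            have := P.lo
            linarith only [this]
    have e2 : Real.exp (-(s ^ c1)) ≤ Real.exp (-((1 / 2 : ℝ) ^ c1 * t ^ (β * c1))) :=
      Real.exp_le_exp.2 (by linarith only [e1])
    calc (107 * t) ^ 2 * Real.exp (-(s ^ c1)) ≤
          (107 * t) ^ 2 * Real.exp (-((1 / 2 : ℝ) ^ c1 * t ^ (β * c1))) := by gcongr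
      _ = _ := by ring
  have T4 : (((Net ρ l).card : ℝ≥0∞) * pO X q s1 (s1 ^ (1 - κ'))) ^ k ≤
      ENNReal.ofReal (Real.exp (-(t ^ c)) / 4) := by
    have e1 := hH s1 (g2.trans P.lo1)
    have e2 : B * s1 ^ (-a) ≤ |B| * 2 ^ a * t ^ (-(β * a)) := by
      have f1 : s1 ^ (-a) ≤ (t ^ β / 2) ^ (-a) :=
        Real.rpow_le_rpow_of_nonpos (by positivity) P.lo1 (by linarith only [ha])
      have f2 : (t ^ β / 2) ^ (-a) = 2 ^ a * t ^ (-(β * a)) := by
        rw [Real.div_rpow hb0.le (by norm_num), ← Real.rpow_mul h0.le, Real.rpow_neg (by norm_num)]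
        rw [div_inv_eq_mul, mul_comm, mul_neg]
      calc B * s1 ^ (-a) ≤ |B| * s1 ^ (-a) := by
            have := P.hs1'
            gcongr
            exact le_abs_self B
        _ ≤ |B| * (t ^ β / 2) ^ (-a) := by gcongr
        _ = _ := by rw [f2]; ring
    have e3 := ofR_le (mul_ofR (by positivity) (nat_ofR hn) (ofR_le e1 e2))
      (z := Real.exp (-1)) (by
        rw [Real.rpow_zero] at F5
        have f3 : (105 * t ^ (1 - γ)) ^ 2 * (|B| * 2 ^ a * t ^ (-(β * a))) =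
            105 ^ 2 * (|B| * 2 ^ a) * t ^ (2 * (1 - γ) - β * a) := by
          rw [sub_eq_add_neg (2 * (1 - γ)), Real.rpow_add h0, mul_comm 2 (1 - γ),
            Real.rpow_mul h0.le]
          norm_num
          ring
        rw [f3, Real.exp_neg, ← one_div, le_div_iff₀ (Real.exp_pos 1)]
        calc _ = Real.exp 1 * (105 ^ 2 * (|B| * 2 ^ a)) * t ^ (2 * (1 - γ) - β * a) := by ring
          _ ≤ 1 := F5)
    calc _ ≤ (ENNReal.ofReal (Real.exp (-1))) ^ k := by gcongr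
      _ = ENNReal.ofReal (Real.exp (-k)) := by
          rw [← ENNReal.ofReal_pow (Real.exp_pos _).le, ← Real.exp_nat_mul]
          congr 2; ring
      _ ≤ ENNReal.ofReal (Real.exp (-(t ^ c)) / 4) := by
          refine ENNReal.ofReal_le_ofReal (le_trans ?_ F4)
          rw [Real.rpow_zero, mul_one, ← Real.exp_add]
          refine Real.exp_le_exp.2 ?_
          have := P.klo
          linarith only [this]
  refine hfin.trans ?_
  have hsum : ENNReal.ofReal (Real.exp (-(t ^ c))) =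
      ENNReal.ofReal (Real.exp (-(t ^ c)) / 4) + ENNReal.ofReal (Real.exp (-(t ^ c)) / 4) +
        ENNReal.ofReal (Real.exp (-(t ^ c)) / 4) + ENNReal.ofReal (Real.exp (-(t ^ c)) / 4) := by
    rw [← ENNReal.ofReal_add (by positivity) (by positivity),
      ← ENNReal.ofReal_add (by positivity) (by positivity),
      ← ENNReal.ofReal_add (by positivity) (by positivity)]
    congr 1; ring
  rw [hsum]
  gcongr

end

end

end Pool.Agent.Run7.h981.OH
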